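import Mathlib

set_option autoImplicit false

/-!
# Matchings as involutions

Basic facts on matchings of a finite graph, written as involutions that move each vertex to a
neighbour or fix it, and Gallai's lemma.
-/

namespace Pool.Agent.R27.SM

open Set

variable {V : Type}

/-- matchings as involutions -/
def Mt (G : SimpleGraph V) (μ : V → V) : Prop :=
  (∀ v, μ (μ v) = v) ∧ ∀ v, μ v ≠ v → G.Adj v (μ v)

/-- the covered vertices -/
def cov (μ : V → V) : Set V := {v | μ v ≠ v}

lemma mem_cov {μ : V → V} {v : V} : v ∈ cov μ ↔ μ v ≠ v := Iff.rfl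

lemma notMem_cov {μ : V → V} {v : V} : v ∉ cov μ ↔ μ v = v := by
  rw [mem_cov, not_not]

lemma Mt.mem_cov {G : SimpleGraph V} {μ : V → V} (h : Mt G μ) {v : V} (hv : v ∈ cov μ) :
    μ v ∈ cov μ := by
  intro h'
  rw [h.1] at h'
  exact hv h'.symm

lemma Mt.inj {G : SimpleGraph V} {μ : V → V} (h : Mt G μ) {u v : V} (huv : μ u = μ v) : u = v := by
  rw [← h.1 u, huv, h.1]

/-- the matchings of Mathlib and the involutions cover the same sets -/
lemma covered_iff {G : SimpleGraph V} {A : Set V} :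
    (∃ W : G.Subgraph, W.IsMatching ∧ A ⊆ W.verts) ↔ ∃ μ, Mt G μ ∧ A ⊆ cov μ := by
  classical
  constructor
  · rintro ⟨W, hW, hA⟩
    let μ : V → V := fun v => if h : v ∈ W.verts then (hW h).choose else v
    have h1 : ∀ v, v ∈ W.verts → W.Adj v (μ v) := by
      intro v hv
      simp only [μ, dif_pos hv]
      exact (hW hv).choose_spec.1
    have h2 : ∀ v w, W.Adj v w → μ v = w := by
      intro v w hvw
      exact (hW (W.edge_vert hvw)).unique (h1 v (W.edge_vert hvw)) hvw
    have h3 : ∀ v, v ∉ W.verts → μ v = v := by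
      intro v hv
      simp only [μ, dif_neg hv]
    refine ⟨μ, ⟨?_, ?_⟩, ?_⟩
    · intro v
      by_cases hv : v ∈ W.verts
      · exact h2 _ _ (h1 v hv).symm
      · rw [h3 v hv, h3 v hv]
    · intro v hv
      by_cases hv' : v ∈ W.verts
      · exact W.adj_sub (h1 v hv')
      · exact absurd (h3 v hv') hv
    · intro v hv h'
      have := (h1 v (hA hv)).ne
      rw [h'] at this
      exact this rfl
  · rintro ⟨μ, hμ, hA⟩
    refine ⟨⟨cov μ, fun u v => u ∈ cov μ ∧ μ u = v, ?_, ?_, ?_⟩, ?_, hA⟩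
    · rintro u v ⟨hu, rfl⟩
      exact hμ.2 u hu
    · rintro u v ⟨hu, -⟩
      exact hu
    · refine ⟨?_⟩
      rintro u v ⟨hu, rfl⟩
      exact ⟨hμ.mem_cov hu, hμ.1 u⟩
    · intro v hv
      exact ⟨μ v, ⟨hv, rfl⟩, fun w hw => hw.2.symm⟩

/-- a set with a fixed-point-free involution has an even number of elements -/
lemma even_of_invol [Finite V] {μ : V → V} (h : ∀ v, μ (μ v) = v) {X : Set V}
    (hX : ∀ v ∈ X, μ v ∈ X ∧ μ v ≠ v) : Even X.ncard := by
  classical
  have : Fintype V := Fintype.ofFinite V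
  rw [Set.ncard_eq_toFinset_card', ← ZMod.natCast_eq_zero_iff_even, ← Finset.sum_const_zero (s := X.toFinset)]
  have h1 : ∑ _x ∈ X.toFinset, (1 : ZMod 2) = 0 := by
    refine Finset.sum_involution (fun v _ => μ v) ?_ ?_ ?_ ?_
    · intro a _
      decide
    · intro a ha _
      exact (hX a (by simpa using ha)).2
    · intro a ha
      simpa using (hX a (by simpa using ha)).1
    · intro a _
      exact h a
  rw [Finset.sum_const_zero, ← h1, Finset.sum_const, nsmul_eq_mul, mul_one]

lemma Mt.even [Finite V] {G : SimpleGraph V} {μ : V → V} (h : Mt G μ) : Even (cov μ).ncard :=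
  even_of_invol h.1 fun _ hv => ⟨h.mem_cov hv, hv⟩

/-- adding an edge -/
lemma Mt.add {G : SimpleGraph V} {μ : V → V} (h : Mt G μ) {x y : V} (hxy : G.Adj x y)
    (hx : x ∉ cov μ) (hy : y ∉ cov μ) : ∃ μ', Mt G μ' ∧ cov μ' = insert x (insert y (cov μ)) := by
  classical
  rw [notMem_cov] at hx hy
  have hne : x ≠ y := hxy.ne
  refine ⟨fun v => if v = x then y else if v = y then x else μ v, ⟨?_, ?_⟩, ?_⟩
  · intro v
    by_cases h1 : v = x
    · simp [h1, hne.symm]
    by_cases h2 : v = y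
    · simp [h2, hne.symm]
    have h3 : μ v ≠ x := fun h3 => h1 (h.inj (h3.trans hx.symm))
    have h4 : μ v ≠ y := fun h4 => h2 (h.inj (h4.trans hy.symm))
    simp only [h1, h2, h3, h4, if_false]
    exact h.1 v
  · intro v hv
    by_cases h1 : v = x
    · simpa [h1] using hxy
    by_cases h2 : v = y
    · simpa [h2, hne.symm] using hxy.symm
    simp only [h1, h2, if_false] at hv ⊢
    exact h.2 v hv
  · ext v
    rw [mem_insert_iff, mem_insert_iff, SM.mem_cov, SM.mem_cov]
    by_cases h1 : v = x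
    · simp [h1, hne.symm]
    by_cases h2 : v = y
    · simp [h2, hne.symm, hne]
    simp only [h1, h2, if_false, false_or]

/-- removing an edge -/
lemma Mt.remove {G : SimpleGraph V} {μ : V → V} (h : Mt G μ) (a : V) :
    ∃ μ', Mt G μ' ∧ cov μ' = cov μ \ {a, μ a} := by
  classical
  refine ⟨fun v => if v = a ∨ v = μ a then v else μ v, ⟨?_, ?_⟩, ?_⟩
  · intro v
    by_cases h1 : v = a ∨ v = μ a
    · simp [h1]
    · have h2 : ¬ (μ v = a ∨ μ v = μ a) := by
        rintro (h2 | h2)
        · exact h1 (Or.inr (by rw [← h2, h.1]))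
        · exact h1 (Or.inl (h.inj h2))
      simp only [h1, h2, if_false]
      exact h.1 v
  · intro v hv
    by_cases h1 : v = a ∨ v = μ a
    · simp [h1] at hv
    · simp only [h1, if_false] at hv ⊢
      exact h.2 v hv
  · ext v
    rw [mem_sdiff, SM.mem_cov, SM.mem_cov, mem_insert_iff, mem_singleton_iff]
    by_cases h1 : v = a ∨ v = μ a
    · simp [h1]
    · simp [h1]

/-- **Gallai's lemma** (transitivity form). -/
lemma gallai [Finite V] {H : SimpleGraph V} {s : ℕ} (hmax : ∀ μ, Mt H μ → (cov μ).ncard ≤ s)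
    {x y z : V} (hxz : x ≠ z) (hy : ∃ μ, Mt H μ ∧ (cov μ).ncard = s ∧ y ∉ cov μ)
    (hxy : ∀ μ, Mt H μ → (cov μ).ncard = s → x ∉ cov μ → y ∉ cov μ → False)
    (hyz : ∀ μ, Mt H μ → (cov μ).ncard = s → y ∉ cov μ → z ∉ cov μ → False) :
    ∀ μ, Mt H μ → (cov μ).ncard = s → x ∉ cov μ → z ∉ cov μ → False := by
  classical
  intro σ hσ hσs hx hz
  obtain ⟨τ, ⟨hτ, hτs, hτy⟩, hmaxτ⟩ := Set.exists_max_image
    {τ : V → V | Mt H τ ∧ (cov τ).ncard = s ∧ y ∉ cov τ}
    (fun τ => {v | σ v = τ v ∧ σ v ≠ v}.ncard) (Set.toFinite _) hy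
  have hτx : x ∈ cov τ := by
    by_contra h; exact hxy τ hτ hτs h hτy
  have hτz : z ∈ cov τ := by
    by_contra h; exact hyz τ hτ hτs hτy h
  -- a second vertex missed by `τ` and covered by `σ`
  have h1 : (cov τ \ cov σ).ncard = (cov σ \ cov τ).ncard := by
    have e1 := Set.ncard_sdiff_add_ncard (cov τ) (cov σ) (Set.toFinite _) (Set.toFinite _)
    have e2 := Set.ncard_sdiff_add_ncard (cov σ) (cov τ) (Set.toFinite _) (Set.toFinite _)
    rw [union_comm] at e2
    omega
  have h2 : 1 < (cov τ \ cov σ).ncard := by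
    rw [Set.one_lt_ncard_iff (Set.toFinite _)]
    exact ⟨x, z, ⟨hτx, hx⟩, ⟨hτz, hz⟩, hxz⟩
  rw [h1, Set.one_lt_ncard_iff (Set.toFinite _)] at h2
  obtain ⟨w, ⟨hwσ, hwτ⟩, hwy⟩ : ∃ w, w ∈ cov σ \ cov τ ∧ w ≠ y := by
    obtain ⟨a, b, ha, hb, hab⟩ := h2
    by_cases h : a = y
    · exact ⟨b, hb, fun h' => hab (h.trans h'.symm)⟩
    · exact ⟨a, ha, h⟩
  rw [notMem_cov] at hwτ hτy
  rw [SM.mem_cov] at hwσ
  -- the neighbour of `w` in `σ`
  have hadj := hσ.2 w hwσ
  have hw' : τ (σ w) ≠ σ w := by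
    intro h3
    obtain ⟨μ, hμ, hμc⟩ := hτ.add hadj (notMem_cov.2 hwτ) (notMem_cov.2 h3)
    have h4 := hmax μ hμ
    rw [hμc, Set.ncard_insert_of_notMem _ (Set.toFinite _),
      Set.ncard_insert_of_notMem (notMem_cov.2 h3) (Set.toFinite _)] at h4
    · omega
    · rw [mem_insert_iff]
      rintro (h5 | h5)
      · exact hwσ h5.symm
      · exact h5 hwτ
  obtain ⟨w', hw'e⟩ : ∃ w', w' = σ w := ⟨_, rfl⟩
  obtain ⟨u, hu⟩ : ∃ u, u = τ w' := ⟨_, rfl⟩
  rw [← hw'e] at hw' hadj hwσ
  rw [← hu] at hw'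
  have hσw' : σ w' = w := by rw [hw'e, hσ.1]
  have hτu : τ u = w' := by rw [hu, hτ.1]
  have huw : u ≠ w := by
    intro h3
    rw [h3, hwτ] at hτu
    exact hwσ hτu.symm
  -- exchange
  let τ' : V → V := fun v => if v = w then w' else if v = w' then w else if v = u then u else τ v
  have t1 : τ' w = w' := by simp [τ']
  have t2 : τ' w' = w := by simp [τ', hwσ]
  have t3 : τ' u = u := by simp [τ', huw, hw']
  have t4 : ∀ v, v ≠ w → v ≠ w' → v ≠ u → τ' v = τ v := by
    intro v a b c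
    simp [τ', a, b, c]
  have hτ' : Mt H τ' := by
    constructor
    · intro v
      by_cases a : v = w
      · rw [a, t1, t2]
      by_cases b : v = w'
      · rw [b, t2, t1]
      by_cases c : v = u
      · rw [c, t3, t3]
      rw [t4 v a b c, t4, hτ.1]
      · intro h3
        exact a (hτ.inj (h3.trans hwτ.symm))
      · intro h3
        exact c (hτ.inj (h3.trans hτu.symm))
      · intro h3
        exact b (hτ.inj (h3.trans hu))
    · intro v hv
      by_cases a : v = w
      · rw [a, t1]; exact hadj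
      by_cases b : v = w'
      · rw [b, t2]; exact hadj.symm
      by_cases c : v = u
      · rw [c, t3] at hv
        exact absurd rfl hv
      rw [t4 v a b c] at hv ⊢
      exact hτ.2 v hv
  have hcov : cov τ' = insert w (cov τ \ {u}) := by
    ext v
    rw [mem_insert_iff, mem_sdiff, SM.mem_cov, SM.mem_cov, mem_singleton_iff]
    by_cases a : v = w
    · rw [a, t1]
      simp [hwσ]
    by_cases b : v = w'
    · rw [b, t2]
      simp only [hwσ, false_or]
      constructor
      · intro _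
        exact ⟨fun h3 => hw' (hu.trans h3), fun h3 => hw' h3.symm⟩
      · intro _ h3
        exact hwσ h3.symm
    by_cases c : v = u
    · rw [c, t3]
      simp [huw]
    rw [t4 v a b c]
    simp [a, c]
  have hcard : (cov τ').ncard = s := by
    rw [hcov, Set.ncard_insert_of_notMem (fun h => h.1 hwτ) (Set.toFinite _),
      Set.ncard_sdiff_singleton_of_mem, hτs]
    · have : 0 < (cov τ).ncard := by
        rw [Set.ncard_pos (Set.toFinite _)]
        exact ⟨x, hτx⟩
      omega
    · rw [SM.mem_cov, hτu]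
      exact hw'.symm
  have hy' : y ∉ cov τ' := by
    rw [notMem_cov, t4 y hwy.symm _ _, hτy]
    · intro h3
      rw [h3] at hτy
      exact hw' (hu.trans hτy)
    · intro h3
      rw [h3] at hτy
      exact hw' (hτy.symm.trans hτu)
  have h5 := hmaxτ τ' ⟨hτ', hcard, hy'⟩
  have h6 : {v | σ v = τ v ∧ σ v ≠ v} ⊂ {v | σ v = τ' v ∧ σ v ≠ v} := by
    rw [ssubset_iff_exists]
    refine ⟨?_, w, ⟨by rw [t1, hw'e], hw'e ▸ hwσ⟩, ?_⟩
    · rintro v ⟨hv1, hv2⟩
      refine ⟨?_, hv2⟩
      rw [t4]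
      · exact hv1
      · intro a
        rw [a] at hv1 hv2
        exact hv2 (hv1.trans hwτ)
      · intro b
        rw [b, hσw', ← hu] at hv1
        exact huw hv1.symm
      · intro c
        rw [c, hτu] at hv1
        have : σ u = σ w := hv1.trans hw'e
        exact huw (hσ.inj this)
    · rintro ⟨h7, h8⟩
      exact h8 (h7.trans hwτ)
  have h7 := Set.ncard_lt_ncard h6 (Set.toFinite _)
  omega

end Pool.Agent.R27.SM
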