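import Mathlib
import Pool.Agent.R27.SM.Basic

set_option autoImplicit false
set_option linter.unusedSectionVars false
set_option linter.unusedVariables false

/-!
# The graph
-/

namespace Pool.Agent.R27.SM

open Set

variable {V : Type}

/-- `X` is the vertex set of a matching -/
def PM (G : SimpleGraph V) (X : Set V) : Prop := ∃ μ, Mt G μ ∧ cov μ = X

lemma pm_empty (G : SimpleGraph V) : PM G ∅ := by
  refine ⟨id, ⟨fun _ => rfl, fun v hv => absurd rfl hv⟩, ?_⟩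
  ext v
  simp [cov]

lemma pm_union {G : SimpleGraph V} {X Y : Set V} (hX : PM G X) (hY : PM G Y)
    (h : Disjoint X Y) : PM G (X ∪ Y) := by
  classical
  obtain ⟨μ, hμ, rfl⟩ := hX
  obtain ⟨ν, hν, rfl⟩ := hY
  rw [Set.disjoint_left] at h
  have h1 : ∀ v, v ∈ cov ν → μ v = v := by
    intro v hv
    by_contra h'
    exact h h' hv
  refine ⟨fun v => if v ∈ cov μ then μ v else ν v, ⟨?_, ?_⟩, ?_⟩
  · intro v
    by_cases hv : v ∈ cov μ
    · simp only [hv, hμ.mem_cov hv, if_true, hμ.1]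
    · by_cases hv' : v ∈ cov ν
      · have h2 : ν v ∉ cov μ := fun h2 => h h2 (hν.mem_cov hv')
        simp only [hv, h2, if_false, hν.1]
      · rw [notMem_cov] at hv'
        simp only [hv, if_false, hv']
  · intro v hv
    by_cases hv' : v ∈ cov μ
    · simp only [hv', if_true] at hv ⊢
      exact hμ.2 v hv
    · simp only [hv', if_false] at hv ⊢
      exact hν.2 v hv
  · ext v
    rw [mem_union, SM.mem_cov]
    by_cases hv' : v ∈ cov μ
    · simp only [hv', if_true, true_or, iff_true]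
      exact hv'
    · simp only [hv', if_false, false_or]
      rfl

lemma pm_pair {G : SimpleGraph V} {u v : V} (h : G.Adj u v) : PM G {u, v} := by
  obtain ⟨μ, hμ, hμc⟩ := pm_empty G
  obtain ⟨ν, hν, hνc⟩ := hμ.add h (by rw [hμc]; exact notMem_empty u) (by rw [hμc]; exact notMem_empty v)
  refine ⟨ν, hν, ?_⟩
  rw [hνc, hμc]
  simp

lemma pm_clique [Finite V] {G : SimpleGraph V} {X : Set V}
    (hX : ∀ u ∈ X, ∀ v ∈ X, u ≠ v → G.Adj u v) (h : Even X.ncard) : PM G X := by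
  obtain ⟨n, hn⟩ := h
  induction n generalizing X with
  | zero =>
    have : X = ∅ := by
      rw [← Set.ncard_eq_zero (Set.toFinite _)]
      omega
    rw [this]
    exact pm_empty G
  | succ n ih =>
    have h1 : 1 < X.ncard := by omega
    rw [Set.one_lt_ncard_iff (Set.toFinite _)] at h1
    obtain ⟨a, b, ha, hb, hab⟩ := h1
    have h2 : (X \ {a, b}).ncard = n + n := by
      rw [Set.ncard_sdiff (by
        intro z hz
        rcases hz with rfl | hz
        · exact ha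
        · rw [mem_singleton_iff.1 hz]; exact hb) (Set.toFinite _), Set.ncard_pair hab]
      omega
    have h3 := ih (X := X \ {a, b}) (fun u hu v hv huv => hX u hu.1 v hv.1 huv) h2
    have h4 := pm_union (pm_pair (hX a ha b hb hab)) h3 (by
      rw [Set.disjoint_left]
      exact fun z hz hz' => hz'.2 hz)
    have h5 : {a, b} ∪ X \ {a, b} = X := by
      rw [Set.union_sdiff_cancel]
      intro z hz
      rcases hz with rfl | hz
      · exact ha
      · rw [mem_singleton_iff.1 hz]; exact hb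
    rwa [h5] at h4

lemma pm_iUnion {ι : Type} [Finite ι] {G : SimpleGraph V} {X : ι → Set V}
    (hX : ∀ i, PM G (X i)) (hd : ∀ i j, i ≠ j → Disjoint (X i) (X j)) : PM G (⋃ i, X i) := by
  classical
  have : Fintype ι := Fintype.ofFinite ι
  have key : ∀ s : Finset ι, PM G (⋃ i ∈ s, X i) := by
    intro s
    induction s using Finset.induction_on with
    | empty => simpa using pm_empty G
    | insert a s ha ih =>
      rw [Finset.set_biUnion_insert]
      refine pm_union (hX a) ih ?_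
      rw [Set.disjoint_iUnion₂_right]
      intro i hi
      exact hd a i fun h => ha (h ▸ hi)
  simpa using key Finset.univ

section Build

variable {K I : Type} {Q : Set V} {Dk : K → Set V} {ρ : K → V} {Rel : K → I → Prop}
  {e : I ⊕ {k // Even (Dk k).ncard} → V}

/-- the relation that defines the graph -/
def rel (Q : Set V) (Dk : K → Set V) (ρ : K → V) (Rel : K → I → Prop)
    (e : I ⊕ {k // Even (Dk k).ncard} → V) (u v : V) : Prop :=
  (∃ k, u ∈ Dk k ∧ v ∈ Dk k ∧ (Even (Dk k).ncard → u ≠ ρ k ∧ v ≠ ρ k)) ∨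
  (∃ k i, v ∈ Dk k ∧ u = e (Sum.inl i) ∧ Rel k i) ∨
  (∃ k : {k // Even (Dk k).ncard}, v ∈ Dk k.1 ∧ u = e (Sum.inr k)) ∨
  (u ∈ Q \ range e ∧ v ∈ Q \ range e)

/-- the graph -/
def gr (Q : Set V) (Dk : K → Set V) (ρ : K → V) (Rel : K → I → Prop)
    (e : I ⊕ {k // Even (Dk k).ncard} → V) : SimpleGraph V :=
  SimpleGraph.fromRel (rel Q Dk ρ Rel e)

lemma gr_adj {u v : V} (h : u ≠ v) (h' : rel Q Dk ρ Rel e u v) : (gr Q Dk ρ Rel e).Adj u v := by
  rw [gr, SimpleGraph.fromRel_adj]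
  exact ⟨h, Or.inl h'⟩

lemma gr_nbr (hdis : ∀ k k' v, v ∈ Dk k → v ∈ Dk k' → k = k') (hQ : ∀ k, ∀ v ∈ Dk k, v ∉ Q)
    (he : ∀ x, e x ∈ Q) {u w : V} {k : K} (hu : u ∈ Dk k) (h : (gr Q Dk ρ Rel e).Adj u w) :
    (w ∈ Dk k ∧ (Even (Dk k).ncard → u ≠ ρ k ∧ w ≠ ρ k)) ∨ (∃ i, w = e (Sum.inl i) ∧ Rel k i) ∨
      ∃ hk : Even (Dk k).ncard, w = e (Sum.inr ⟨k, hk⟩) := by
  rw [gr, SimpleGraph.fromRel_adj] at h
  have huQ := hQ k u hu
  rcases h.2 with (⟨k', h1, h2, h3⟩ | ⟨k', i, _, h1, _⟩ | ⟨k', _, h1⟩ | ⟨h1, _⟩) |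
    (⟨k', h1, h2, h3⟩ | ⟨k', i, h1, h2, h3⟩ | ⟨k', h1, h2⟩ | ⟨_, h1⟩)
  · obtain rfl := hdis k k' u hu h1
    exact Or.inl ⟨h2, h3⟩
  · exact absurd (h1 ▸ he _) huQ
  · exact absurd (h1 ▸ he _) huQ
  · exact absurd h1.1 huQ
  · obtain rfl := hdis k k' u hu h2
    exact Or.inl ⟨h1, fun h => (h3 h).symm⟩
  · obtain rfl := hdis k k' u hu h1
    exact Or.inr (Or.inl ⟨i, h2, h3⟩)
  · obtain rfl := hdis k k'.1 u hu h1
    exact Or.inr (Or.inr ⟨k'.2, h2⟩)
  · exact absurd h1.1 huQ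

/-- parity: a class that is covered sends an edge to some `e (inl i)` -/
lemma parity [Finite V] (hdis : ∀ k k' v, v ∈ Dk k → v ∈ Dk k' → k = k')
    (hQ : ∀ k, ∀ v ∈ Dk k, v ∉ Q) (he : ∀ x, e x ∈ Q) (hρ : ∀ k, ρ k ∈ Dk k) {μ : V → V}
    (hμ : Mt (gr Q Dk ρ Rel e) μ) {k : K} (hk : Dk k ⊆ cov μ) :
    ∃ u ∈ Dk k, ∃ i, μ u = e (Sum.inl i) ∧ Rel k i := by
  by_contra hcon
  push Not at hcon
  have h1 : ∀ u ∈ Dk k, (μ u ∈ Dk k ∧ (Even (Dk k).ncard → u ≠ ρ k ∧ μ u ≠ ρ k)) ∨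
      ∃ hk : Even (Dk k).ncard, μ u = e (Sum.inr ⟨k, hk⟩) := by
    intro u hu
    rcases gr_nbr hdis hQ he hu (hμ.2 u (hk hu)) with h | ⟨i, hi, hi'⟩ | h
    · exact Or.inl h
    · exact absurd hi' (hcon u hu i hi)
    · exact Or.inr h
  by_cases hev : Even (Dk k).ncard
  · have h2 : μ (ρ k) = e (Sum.inr ⟨k, hev⟩) := by
      rcases h1 _ (hρ k) with h | ⟨_, h⟩
      · exact absurd rfl (h.2 hev).1
      · exact h
    have h3 : Even (Dk k \ {ρ k}).ncard := by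
      refine even_of_invol hμ.1 ?_
      rintro v ⟨hv, hvρ⟩
      rcases h1 v hv with h | ⟨_, h⟩
      · exact ⟨⟨h.1, (h.2 hev).2⟩, hk hv⟩
      · exact absurd (hμ.inj (h.trans h2.symm)) hvρ
    rw [Set.ncard_sdiff_singleton_of_mem (hρ k)] at h3
    have h4 : 0 < (Dk k).ncard := by
      rw [Set.ncard_pos (Set.toFinite _)]
      exact ⟨_, hρ k⟩
    obtain ⟨a, ha⟩ := h3
    obtain ⟨b, hb⟩ := hev
    omega
  · apply hev
    refine even_of_invol hμ.1 ?_
    intro v hv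
    rcases h1 v hv with h | ⟨h, _⟩
    · exact ⟨h.1, hk hv⟩
    · exact absurd h hev

/-- one class, together with its own vertex if the class is even -/
lemma pm_class [Finite V] (hdis : ∀ k k' v, v ∈ Dk k → v ∈ Dk k' → k = k')
    (hQ : ∀ k, ∀ v ∈ Dk k, v ∉ Q) (he : ∀ x, e x ∈ Q) (hρ : ∀ k, ρ k ∈ Dk k) {k : K} {p : V}
    (hp : p ∈ Dk k) :
    PM (gr Q Dk ρ Rel e) ((Dk k \ {p}) ∪ {x | ∃ hk : Even (Dk k).ncard, x = e (Sum.inr ⟨k, hk⟩)})
    := by
  have h4 : 0 < (Dk k).ncard := by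
    rw [Set.ncard_pos (Set.toFinite _)]
    exact ⟨_, hρ k⟩
  by_cases hev : Even (Dk k).ncard
  · obtain ⟨w, hw, hwp, hρw⟩ : ∃ w ∈ Dk k, w ≠ p ∧ ∀ v ∈ Dk k \ {p, w}, v ≠ ρ k := by
      by_cases hpρ : p = ρ k
      · have h5 : 1 < (Dk k).ncard := by
          obtain ⟨b, hb⟩ := hev
          omega
        obtain ⟨w, hw, hwp⟩ := Set.exists_ne_of_one_lt_ncard h5 p
        refine ⟨w, hw, hwp, ?_⟩
        rintro v ⟨_, hv⟩ h
        exact hv (Or.inl (h.trans hpρ.symm))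
      · refine ⟨ρ k, hρ k, fun h => hpρ h.symm, ?_⟩
        rintro v ⟨_, hv⟩ h
        exact hv (Or.inr h)
    have h5 : (Dk k \ {p, w}).ncard = (Dk k).ncard - 2 := by
      rw [Set.ncard_sdiff (by
        intro z hz
        rcases hz with rfl | hz
        · exact hp
        · rw [mem_singleton_iff.1 hz]; exact hw) (Set.toFinite _), Set.ncard_pair hwp.symm]
    have h6 : PM (gr Q Dk ρ Rel e) (Dk k \ {p, w}) := by
      apply pm_clique
      · intro u hu v hv huv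
        exact gr_adj huv (Or.inl ⟨k, hu.1, hv.1, fun _ => ⟨hρw u hu, hρw v hv⟩⟩)
      · rw [h5]
        obtain ⟨b, hb⟩ := hev
        exact ⟨b - 1, by omega⟩
    have h7 : PM (gr Q Dk ρ Rel e) {e (Sum.inr ⟨k, hev⟩), w} := by
      apply pm_pair
      refine gr_adj ?_ (Or.inr (Or.inr (Or.inl ⟨⟨k, hev⟩, hw, rfl⟩)))
      intro h
      exact hQ k w hw (h ▸ he _)
    have h8 := pm_union h7 h6 (by
      rw [Set.disjoint_left]
      rintro z (rfl | hz) hz'
      · exact hQ k _ hz'.1 (he _)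
      · exact hz'.2 (Or.inr hz))
    convert h8 using 1
    ext z
    simp only [mem_union, mem_sdiff, mem_singleton_iff, mem_ofPred_eq, mem_insert_iff]
    constructor
    · rintro (⟨h1, h2⟩ | ⟨_, h1⟩)
      · by_cases h3 : z = w
        · exact Or.inl (Or.inr h3)
        · exact Or.inr ⟨h1, by rintro (h | h); exacts [h2 h, h3 h]⟩
      · exact Or.inl (Or.inl h1)
    · rintro ((h1 | h1) | ⟨h1, h2⟩)
      · exact Or.inr ⟨hev, h1⟩
      · exact Or.inl ⟨h1 ▸ hw, h1 ▸ hwp⟩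
      · exact Or.inl ⟨h1, fun h => h2 (Or.inl h)⟩
  · have h5 : PM (gr Q Dk ρ Rel e) (Dk k \ {p}) := by
      apply pm_clique
      · intro u hu v hv huv
        exact gr_adj huv (Or.inl ⟨k, hu.1, hv.1, fun h => absurd h hev⟩)
      · rw [Set.ncard_sdiff_singleton_of_mem hp]
        rw [Nat.not_even_iff_odd] at hev
        obtain ⟨b, hb⟩ := hev
        exact ⟨b, by omega⟩
    convert h5 using 1
    ext z
    simp only [mem_union, mem_ofPred_eq]
    constructor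
    · rintro (h | ⟨h, _⟩)
      · exact h
      · exact absurd h hev
    · exact Or.inl

/-- the matching of a base -/
lemma pm_base [Finite V] [Finite K] [Finite I]
    (hdis : ∀ k k' v, v ∈ Dk k → v ∈ Dk k' → k = k') (hQ : ∀ k, ∀ v ∈ Dk k, v ∉ Q)
    (hcov : ∀ v, v ∉ Q → ∃ k, v ∈ Dk k)
    (he : ∀ x, e x ∈ Q) (hei : Function.Injective e) (hρ : ∀ k, ρ k ∈ Dk k)
    (hC : Even (Q \ range e).ncard) {κ : I → K} (hκ : Function.Injective κ)
    (hκR : ∀ i, Rel (κ i) i) {p : K → V} (hp : ∀ k, p k ∈ Dk k) :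
    ∃ μ, Mt (gr Q Dk ρ Rel e) μ ∧ ∀ v, (∀ k, k ∉ range κ → v ≠ p k) → v ∈ cov μ := by
  let Y : K → Set V := fun k => (Dk k \ {p k}) ∪
    {x | ∃ hk : Even (Dk k).ncard, x = e (Sum.inr ⟨k, hk⟩)}
  let Z : I → Set V := fun i => {e (Sum.inl i), p (κ i)}
  have h1 : PM (gr Q Dk ρ Rel e) (⋃ k, Y k) := by
    refine pm_iUnion (fun k => pm_class hdis hQ he hρ (hp k)) ?_
    intro k k' hkk
    rw [Set.disjoint_left]
    rintro z (⟨hz, _⟩ | ⟨h1, rfl⟩) (⟨hz', _⟩ | ⟨h2, h3⟩)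
    · exact hkk (hdis _ _ z hz hz')
    · exact hQ k z hz (h3 ▸ he _)
    · exact hQ k' _ hz' (he _)
    · have := hei h3
      simp only [Sum.inr.injEq, Subtype.mk.injEq] at this
      exact hkk this
  have h2 : PM (gr Q Dk ρ Rel e) (⋃ i, Z i) := by
    refine pm_iUnion (fun i => pm_pair (gr_adj ?_ (Or.inr (Or.inl ⟨κ i, i, hp _, rfl, hκR i⟩)))) ?_
    · intro h
      exact hQ _ _ (hp (κ i)) (h ▸ he _)
    · intro i j hij
      rw [Set.disjoint_left]
      rintro z (rfl | hz) (h3 | h3)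
      · have := hei h3
        simp only [Sum.inl.injEq] at this
        exact hij this
      · exact hQ _ _ (hp (κ j)) (mem_singleton_iff.1 h3 ▸ he _)
      · rw [mem_singleton_iff] at hz
        rw [hz] at h3
        exact hQ _ _ (hp (κ i)) (h3 ▸ he _)
      · rw [mem_singleton_iff] at hz h3
        exact hij (hκ (hdis _ _ z (hz ▸ hp _) (h3 ▸ hp _)))
  have h3 : PM (gr Q Dk ρ Rel e) (Q \ range e) :=
    pm_clique (fun u hu v hv huv => gr_adj huv (Or.inr (Or.inr (Or.inr ⟨hu, hv⟩)))) hC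
  have h4 := pm_union h2 h3 (by
    rw [Set.disjoint_iUnion_left]
    intro i
    rw [Set.disjoint_left]
    rintro z (rfl | hz) hz'
    · exact hz'.2 ⟨_, rfl⟩
    · rw [mem_singleton_iff] at hz
      exact hQ _ _ (hp (κ i)) (hz ▸ hz'.1))
  have h5 := pm_union h1 h4 (by
    rw [Set.disjoint_iUnion_left]
    intro k
    rw [Set.disjoint_union_right, Set.disjoint_iUnion_right]
    constructor
    · intro i
      rw [Set.disjoint_left]
      rintro z (⟨hz, hzp⟩ | ⟨_, rfl⟩) (h3 | h3)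
      · exact hQ k z hz (h3 ▸ he _)
      · rw [mem_singleton_iff] at h3
        obtain rfl := hdis _ _ z hz (h3 ▸ hp _)
        exact hzp h3
      · have := hei h3
        simp at this
      · rw [mem_singleton_iff] at h3
        exact hQ _ _ (hp (κ i)) (h3 ▸ he _)
    · rw [Set.disjoint_left]
      rintro z (⟨hz, hzp⟩ | ⟨_, rfl⟩) hz'
      · exact hQ k z hz hz'.1
      · exact hz'.2 ⟨_, rfl⟩)
  obtain ⟨μ, hμ, hμc⟩ := h5
  refine ⟨μ, hμ, fun v hv => ?_⟩
  rw [hμc]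
  by_cases hvQ : v ∈ Q
  · by_cases hve : v ∈ range e
    · obtain ⟨i | k, rfl⟩ := hve
      · exact Or.inr (Or.inl (mem_iUnion.2 ⟨i, Or.inl rfl⟩))
      · exact Or.inl (mem_iUnion.2 ⟨k.1, Or.inr ⟨k.2, rfl⟩⟩)
    · exact Or.inr (Or.inr ⟨hvQ, hve⟩)
  · obtain ⟨k, hk⟩ := hcov v hvQ
    by_cases h6 : v = p k
    · by_cases h7 : k ∈ range κ
      · obtain ⟨i, rfl⟩ := h7
        exact Or.inr (Or.inl (mem_iUnion.2 ⟨i, Or.inr h6⟩))
      · exact absurd h6 (hv k h7)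
    · exact Or.inl (mem_iUnion.2 ⟨k, Or.inl ⟨hk, h6⟩⟩)

/-- **The graph has the right matching matroid.** -/
theorem build [Finite V] [Finite K] [Finite I] {M : Matroid V}
    (hdis : ∀ k k' v, v ∈ Dk k → v ∈ Dk k' → k = k') (hQ : ∀ k, ∀ v ∈ Dk k, v ∉ Q)
    (hcov : ∀ v, v ∉ Q → ∃ k, v ∈ Dk k)
    (he : ∀ x, e x ∈ Q) (hei : Function.Injective e) (hρ : ∀ k, ρ k ∈ Dk k)
    (hC : Even (Q \ range e).ncard)
    (hM : ∀ X, M.Indep X ↔ ∃ κ : {k // Dk k ⊆ X} → I, Function.Injective κ ∧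
      ∀ k, Rel k.1 (κ k))
    (hB : ∀ B, M.IsBase B → Nat.card {k // Dk k ⊆ B} = Nat.card I) (X : Set V) :
    M.Indep X ↔ ∃ μ, Mt (gr Q Dk ρ Rel e) μ ∧ X ⊆ cov μ := by
  constructor
  · intro hX
    obtain ⟨B, hB', hXB⟩ := hX.exists_isBase_superset
    obtain ⟨κ, hκ, hκR⟩ := (hM B).1 hB'.indep
    have hbij : Function.Bijective κ :=
      (Nat.bijective_iff_injective_and_card κ).2 ⟨hκ, hB B hB'⟩
    let E := Equiv.ofBijective κ hbij
    have hp : ∀ k, ∃ p ∈ Dk k, ¬ Dk k ⊆ B → p ∉ B := by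
      intro k
      by_cases h : Dk k ⊆ B
      · exact ⟨ρ k, hρ k, fun h' => absurd h h'⟩
      · obtain ⟨p, hp, hpB⟩ := Set.not_subset.1 h
        exact ⟨p, hp, fun _ => hpB⟩
    choose p hp hpB using hp
    obtain ⟨μ, hμ, hμc⟩ := pm_base (Rel := Rel) hdis hQ hcov he hei hρ hC
      (κ := fun i => (E.symm i).1) (fun i j hij => E.symm.injective (Subtype.ext hij))
      (fun i => by
        have := hκR (E.symm i)
        rwa [show κ (E.symm i) = i from E.apply_symm_apply i] at this) hp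
    refine ⟨μ, hμ, fun v hv => hμc v ?_⟩
    intro k hk hvk
    have h1 : ¬ Dk k ⊆ B := by
      intro h1
      apply hk
      exact ⟨E ⟨k, h1⟩, by simp only [E.symm_apply_apply]⟩
    exact hpB k h1 (hvk ▸ hXB hv)
  · rintro ⟨μ, hμ, hX⟩
    rw [hM]
    have h1 : ∀ k : {k // Dk k ⊆ X}, ∃ u ∈ Dk k.1, ∃ i, μ u = e (Sum.inl i) ∧ Rel k.1 i :=
      fun k => parity hdis hQ he hρ hμ (k.2.trans hX)
    choose u hu i hi hR using h1
    refine ⟨i, ?_, hR⟩
    intro k k' hkk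
    have h2 : u k = u k' := hμ.inj (by rw [hi, hi, hkk])
    exact Subtype.ext (hdis _ _ (u k) (hu k) (h2 ▸ hu k'))

end Build

end Pool.Agent.R27.SM
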