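import Mathlib
import Pool.Agent.R27.SM.Basic

set_option autoImplicit false
set_option linter.unusedSectionVars false
set_option linter.unusedVariables false

/-!
# The necessary condition on strict matching matroids
-/

namespace Pool.Agent.R27.SM

open Set

variable {V : Type}

/-- the elements that are not coloops -/
def nonco (M : Matroid V) : Set V := {v | ∃ B, M.IsBase B ∧ v ∉ B}

/-- the series relation -/
def Sr (M : Matroid V) (x y : V) : Prop := x = y ∨ ∀ B, M.IsBase B → x ∈ B ∨ y ∈ B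

/-- the series class of `x` -/
def ser (M : Matroid V) (x : V) : Set V := {y | y ∈ nonco M ∧ Sr M x y}

/-- the series classes -/
def classes (M : Matroid V) : Set (Set V) := ser M '' nonco M

/-- the series classes with an even number of elements -/
def evenClasses (M : Matroid V) : Set (Set V) := {S | S ∈ classes M ∧ Even S.ncard}

lemma Sr.symm {M : Matroid V} {x y : V} (hxy : Sr M x y) : Sr M y x := by
  rcases hxy with rfl | hxy
  · exact Or.inl rfl
  · exact Or.inr fun B hB => (hxy B hB).symm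

lemma Sr.trans {M : Matroid V} {x y z : V} (hy : y ∈ nonco M) (hxy : Sr M x y)
    (hyz : Sr M y z) : Sr M x z := by
  rcases hxy with rfl | hxy
  · exact hyz
  rcases hyz with rfl | hyz
  · exact Or.inr hxy
  by_cases hxz : x = z
  · exact Or.inl hxz
  refine Or.inr fun B hB => ?_
  by_contra hcon
  push Not at hcon
  obtain ⟨hx, hz⟩ := hcon
  have hyB : y ∈ B := (hxy B hB).resolve_left hx
  obtain ⟨B', hB', hyB'⟩ := hy
  obtain ⟨w, hw, hwB⟩ := hB.exchange hB' ⟨hyB, hyB'⟩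
  have hyw : y ∉ insert w (B \ {y}) := by
    rw [mem_insert_iff]
    rintro (h | h)
    · exact hw.2 (h ▸ hyB)
    · exact h.2 rfl
  have h1 := (hxy _ hwB).resolve_right hyw
  have h2 := (hyz _ hwB).resolve_left hyw
  have h3 : x = w := by
    rcases mem_insert_iff.1 h1 with h | h
    · exact h
    · exact absurd h.1 hx
  have h4 : z = w := by
    rcases mem_insert_iff.1 h2 with h | h
    · exact h
    · exact absurd h.1 hz
  exact hxz (h3.trans h4.symm)

lemma mem_ser_self {M : Matroid V} {x : V} (hx : x ∈ nonco M) : x ∈ ser M x := ⟨hx, Or.inl rfl⟩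

lemma ser_eq {M : Matroid V} {x y z : V} (hx : x ∈ nonco M) (hy : y ∈ nonco M)
    (hz : z ∈ ser M x) (hz' : z ∈ ser M y) : ser M x = ser M y := by
  have key : ∀ x y, x ∈ nonco M → z ∈ ser M x → z ∈ ser M y → ser M x ⊆ ser M y := by
    intro x y hx hz hz' w hw
    exact ⟨hw.1, (hz'.2.trans hz.1 hz.2.symm).trans hx hw.2⟩
  exact Subset.antisymm (key x y hx hz hz') (key y x hy hz' hz)

/-! ### The components of the graph on the non-coloops -/

section Comp

variable {G : SimpleGraph V} {D : Set V}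

/-- reachability within `D` -/
def Rt (G : SimpleGraph V) (D : Set V) : V → V → Prop :=
  Relation.ReflTransGen fun x y => G.Adj x y ∧ x ∈ D ∧ y ∈ D

lemma Rt.symm {x y : V} (h : Rt G D x y) : Rt G D y x := by
  induction h with
  | refl => exact Relation.ReflTransGen.refl
  | tail _ hbc ih => exact Relation.ReflTransGen.head ⟨hbc.1.symm, hbc.2.2, hbc.2.1⟩ ih

lemma Rt.mem {x y : V} (h : Rt G D x y) (hx : x ∈ D) : y ∈ D := by
  induction h with
  | refl => exact hx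
  | tail _ hbc _ => exact hbc.2.2

/-- In a graph `H` in which each element of `D` is missed by some maximum matching, no maximum
matching misses two vertices joined by a path of `G[D]`, `G[D]` being a subgraph of `H`. -/
lemma reach_rel [Finite V] {H : SimpleGraph V} {s : ℕ}
    (hmax : ∀ μ, Mt H μ → (cov μ).ncard ≤ s)
    (hmiss : ∀ d ∈ D, ∃ μ, Mt H μ ∧ (cov μ).ncard = s ∧ d ∉ cov μ)
    (hadj : ∀ x ∈ D, ∀ y ∈ D, G.Adj x y → H.Adj x y) {x y : V} (hx : x ∈ D) (h : Rt G D x y) :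
    x = y ∨ ∀ μ, Mt H μ → (cov μ).ncard = s → x ∉ cov μ → y ∉ cov μ → False := by
  induction h with
  | refl => exact Or.inl rfl
  | @tail b c hab hbc ih =>
    have hbD : b ∈ D := hbc.2.1
    have h1 : ∀ μ, Mt H μ → (cov μ).ncard = s → b ∉ cov μ → c ∉ cov μ → False := by
      intro μ hμ hs hb hc
      obtain ⟨μ', hμ', hc'⟩ := hμ.add (hadj b hbD c hbc.2.2 hbc.1) hb hc
      have h2 := hmax μ' hμ'
      rw [hc', Set.ncard_insert_of_notMem _ (Set.toFinite _),
        Set.ncard_insert_of_notMem hc (Set.toFinite _)] at h2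
      · omega
      · rw [mem_insert_iff]
        rintro (h | h)
        · exact hbc.1.ne h
        · exact hb h
    rcases ih with rfl | ih
    · exact Or.inr h1
    · by_cases hxc : x = c
      · exact Or.inl hxc
      · exact Or.inr (gallai hmax hxc (hmiss b hbD) ih h1)

end Comp

section Nec

variable [Finite V] {M : Matroid V} {G : SimpleGraph V} {r : ℕ}

lemma base_cov (hM : ∀ X, M.Indep X ↔ ∃ μ, Mt G μ ∧ X ⊆ cov μ) {B : Set V} (hB : M.IsBase B) :
    ∃ μ, Mt G μ ∧ cov μ = B := by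
  obtain ⟨μ, hμ, hBμ⟩ := (hM B).1 hB.indep
  exact ⟨μ, hμ, (hB.eq_of_subset_indep ((hM _).2 ⟨μ, hμ, subset_rfl⟩) hBμ).symm⟩

lemma cov_le (hM : ∀ X, M.Indep X ↔ ∃ μ, Mt G μ ∧ X ⊆ cov μ)
    (hr : ∀ B, M.IsBase B → B.ncard = r) {μ : V → V} (hμ : Mt G μ) : (cov μ).ncard ≤ r := by
  obtain ⟨B, hB, h⟩ := ((hM _).2 ⟨μ, hμ, subset_rfl⟩).exists_isBase_superset
  rw [← hr B hB]
  exact Set.ncard_le_ncard h (Set.toFinite _)

lemma cov_base (hM : ∀ X, M.Indep X ↔ ∃ μ, Mt G μ ∧ X ⊆ cov μ)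
    (hr : ∀ B, M.IsBase B → B.ncard = r) {μ : V → V} (hμ : Mt G μ) (h : (cov μ).ncard = r) :
    M.IsBase (cov μ) := by
  obtain ⟨B, hB, h'⟩ := ((hM _).2 ⟨μ, hμ, subset_rfl⟩).exists_isBase_superset
  rwa [Set.eq_of_subset_of_ncard_le h' (by rw [h, hr B hB]) (Set.toFinite _)]

lemma even_rank (hM : ∀ X, M.Indep X ↔ ∃ μ, Mt G μ ∧ X ⊆ cov μ) {B : Set V}
    (hB : M.IsBase B) : Even B.ncard := by
  obtain ⟨μ, hμ, rfl⟩ := base_cov hM hB
  exact hμ.even

/-- vertices joined by a path in the graph of the non-coloops are in series -/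
lemma reach_ser (hM : ∀ X, M.Indep X ↔ ∃ μ, Mt G μ ∧ X ⊆ cov μ)
    (hr : ∀ B, M.IsBase B → B.ncard = r) {x y : V} (hx : x ∈ nonco M)
    (h : Rt G (nonco M) x y) : Sr M x y := by
  rcases reach_rel (s := r) (fun μ hμ => cov_le hM hr hμ) (fun d hd => by
    obtain ⟨B, hB, hd⟩ := hd
    obtain ⟨μ, hμ, rfl⟩ := base_cov hM hB
    exact ⟨μ, hμ, hr _ hB, hd⟩) (fun x _ y _ h => h) hx h with h1 | h1
  · exact Or.inl h1
  · refine Or.inr fun B hB => ?_
    by_contra hcon
    push Not at hcon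
    obtain ⟨μ, hμ, rfl⟩ := base_cov hM hB
    exact h1 μ hμ (hr _ hB) hcon.1 hcon.2

/-- a maximum matching that misses a vertex of a component of the graph of the non-coloops
does not leave the component -/
lemma stay (hM : ∀ X, M.Indep X ↔ ∃ μ, Mt G μ ∧ X ⊆ cov μ)
    (hr : ∀ B, M.IsBase B → B.ncard = r) {x y : V} (hx : x ∈ nonco M)
    (h : Rt G (nonco M) x y) {μ : V → V} (hμ : Mt G μ) (hμr : (cov μ).ncard = r)
    (hxμ : x ∉ cov μ) (hxy : x ≠ y) : μ y ∈ nonco M := by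
  by_contra ha
  obtain ⟨a, hae⟩ : ∃ a, a = μ y := ⟨_, rfl⟩
  rw [← hae] at ha
  have hy : y ∈ nonco M := h.mem hx
  have hya : y ≠ a := fun h' => ha (h' ▸ hy)
  have hycov : y ∈ cov μ := by
    intro h'
    exact hya (h'.symm.trans hae.symm)
  have hacov : a ∈ cov μ := hae ▸ hμ.mem_cov hycov
  have hμa : μ a = y := by rw [hae, hμ.1]
  have hcol : ∀ B, M.IsBase B → a ∈ B := by
    intro B hB
    by_contra h'
    exact ha ⟨B, hB, h'⟩
  -- the graph without `a`
  let H : SimpleGraph V :=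
    { Adj := fun u v => G.Adj u v ∧ u ≠ a ∧ v ≠ a
      symm := ⟨fun u v h => ⟨h.1.symm, h.2.2, h.2.1⟩⟩
      loopless := ⟨fun u h => h.1.ne rfl⟩ }
  have hr2 : Even r := hμr ▸ hμ.even
  have hH : ∀ τ, Mt H τ → Mt G τ ∧ a ∉ cov τ := by
    intro τ hτ
    exact ⟨⟨hτ.1, fun v hv => (hτ.2 v hv).1⟩, fun h' => (hτ.2 a h').2.1 rfl⟩
  have hH' : ∀ τ, Mt G τ → a ∉ cov τ → Mt H τ := by
    intro τ hτ haτ
    rw [notMem_cov] at haτ
    refine ⟨hτ.1, fun v hv => ⟨hτ.2 v hv, ?_, ?_⟩⟩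
    · intro h'
      rw [h'] at hv
      exact hv haτ
    · intro h'
      apply hv
      rw [h']
      exact (hτ.inj (h'.trans haτ.symm)).symm
  have hrem : ∀ τ, Mt G τ → (cov τ).ncard = r → ∃ τ', Mt H τ' ∧ cov τ' = cov τ \ {a, τ a} ∧
      (cov τ').ncard = r - 2 := by
    intro τ hτ hτr
    have h1 : a ∈ cov τ := hcol _ (cov_base hM hr hτ hτr)
    obtain ⟨τ', hτ', hc⟩ := hτ.remove a
    refine ⟨τ', hH' τ' hτ' (by rw [hc]; exact fun h => h.2 (mem_insert _ _)), hc, ?_⟩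
    rw [hc, Set.ncard_sdiff (by
      intro z hz
      rcases hz with rfl | hz
      · exact h1
      · rw [mem_singleton_iff.1 hz]
        exact hτ.mem_cov h1) (Set.toFinite _), hτr, Set.ncard_pair (Ne.symm h1)]
  have hmax : ∀ τ, Mt H τ → (cov τ).ncard ≤ r - 2 := by
    intro τ hτ
    obtain ⟨h1, h2⟩ := hH τ hτ
    have h3 := cov_le hM hr h1
    have h4 : (cov τ).ncard ≠ r := fun h4 => h2 (hcol _ (cov_base hM hr h1 h4))
    obtain ⟨k, hk⟩ := h1.even
    obtain ⟨l, hl⟩ := hr2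
    omega
  rcases reach_rel (G := G) (D := nonco M) hmax (fun d hd => by
      obtain ⟨B, hB, hd'⟩ := hd
      obtain ⟨τ, hτ, rfl⟩ := base_cov hM hB
      obtain ⟨τ', h1, h2, h3⟩ := hrem τ hτ (hr _ hB)
      exact ⟨τ', h1, h3, by rw [h2]; exact fun h => hd' h.1⟩)
    (fun u hu v hv huv => ⟨huv, fun h' => ha (h' ▸ hu), fun h' => ha (h' ▸ hv)⟩) hx h with h1 | h1
  · exact hxy h1
  · obtain ⟨τ, h2, h3, h4⟩ := hrem μ hμ hμr
    refine h1 τ h2 h4 ?_ ?_
    · rw [h3]
      exact fun h => hxμ h.1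
    · rw [h3, hμa]
      exact fun h => h.2 (Or.inr rfl)

/-- the components -/
def comps (G : SimpleGraph V) (M : Matroid V) : Set (Set V) :=
  (fun v => {u | Rt G (nonco M) v u}) '' nonco M

lemma comp_odd (hM : ∀ X, M.Indep X ↔ ∃ μ, Mt G μ ∧ X ⊆ cov μ)
    (hr : ∀ B, M.IsBase B → B.ncard = r) {K : Set V} (hK : K ∈ comps G M) : ¬ Even K.ncard := by
  obtain ⟨v, ⟨B, hB, hvB⟩, rfl⟩ := hK
  have hv : v ∈ nonco M := ⟨B, hB, hvB⟩
  obtain ⟨μ, hμ, rfl⟩ := base_cov hM hB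
  have h1 : Even ({u | Rt G (nonco M) v u} \ {v}).ncard := by
    refine even_of_invol hμ.1 ?_
    rintro u ⟨hu, huv⟩
    have huv' : v ≠ u := fun h => huv h.symm
    have h2 : μ u ≠ u := by
      intro h2
      rcases reach_ser hM hr hv hu with h3 | h3
      · exact huv' h3
      · rcases h3 _ hB with h4 | h4
        · exact hvB h4
        · exact h4 h2
    have h3 := stay hM hr hv hu hμ (hr _ hB) hvB huv'
    refine ⟨⟨?_, ?_⟩, h2⟩
    · exact Relation.ReflTransGen.tail hu ⟨hμ.2 u h2, Rt.mem hu hv, h3⟩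
    · intro h4
      rw [mem_singleton_iff] at h4
      have : μ v = u := by rw [← h4, hμ.1]
      rw [notMem_cov] at hvB
      exact huv' (hvB.symm.trans this)
  have h2 : v ∈ {u | Rt G (nonco M) v u} := Relation.ReflTransGen.refl
  have h3 := Set.ncard_sdiff_singleton_of_mem h2
  have h4 : 0 < {u | Rt G (nonco M) v u}.ncard := by
    rw [Set.ncard_pos (Set.toFinite _)]
    exact ⟨v, h2⟩
  show ¬ Even {u | Rt G (nonco M) v u}.ncard
  intro h5
  obtain ⟨a, ha⟩ := h1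
  obtain ⟨b, hb⟩ := h5
  omega

lemma comp_eq {K K' : Set V} (hK : K ∈ comps G M) (hK' : K' ∈ comps G M) {z : V} (hz : z ∈ K)
    (hz' : z ∈ K') : K = K' := by
  obtain ⟨v, hv, rfl⟩ := hK
  obtain ⟨v', hv', rfl⟩ := hK'
  have key : ∀ v v', Rt G (nonco M) v z → Rt G (nonco M) v' z →
      {u | Rt G (nonco M) v u} ⊆ {u | Rt G (nonco M) v' u} := by
    intro v v' h h' u hu
    exact (Relation.ReflTransGen.trans h' (Rt.symm h)).trans hu
  exact Subset.antisymm (key v v' hz hz') (key v' v hz' hz)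

/-- the number of components -/
lemma comps_le (hM : ∀ X, M.Indep X ↔ ∃ μ, Mt G μ ∧ X ⊆ cov μ)
    (hr : ∀ B, M.IsBase B → B.ncard = r) {B : Set V} (hB : M.IsBase B) :
    (comps G M).ncard ≤ (nonco M)ᶜ.ncard + Bᶜ.ncard := by
  obtain ⟨μ, hμ, hμB⟩ := base_cov hM hB
  have h1 : ∀ K ∈ comps G M, ∃ y ∈ (nonco M)ᶜ ∪ Bᶜ, μ y ∈ K := by
    intro K hK
    by_contra hcon
    push Not at hcon
    apply comp_odd hM hr hK
    refine even_of_invol hμ.1 ?_
    intro v hv
    have h2 : v ∈ B := by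
      by_contra h2
      have h3 := hcon v (Or.inr h2)
      rw [← hμB, notMem_cov] at h2
      exact h3 (h2.symm ▸ hv)
    have h3 : μ v ∈ nonco M := by
      by_contra h3
      have h4 := hcon (μ v) (Or.inl h3)
      rw [hμ.1] at h4
      exact h4 hv
    rw [← hμB] at h2
    refine ⟨?_, h2⟩
    obtain ⟨u, hu, rfl⟩ := hK
    exact Relation.ReflTransGen.tail hv ⟨hμ.2 v h2, Rt.mem hv hu, h3⟩
  rcases isEmpty_or_nonempty V with hV | hV
  · have : comps G M = ∅ := by rw [comps, Set.eq_empty_of_isEmpty (nonco M), image_empty]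
    rw [this, Set.ncard_empty]
    exact Nat.zero_le _
  choose! f hf hf' using h1
  refine (Set.ncard_le_ncard_of_injOn f hf ?_ (Set.toFinite _)).trans (Set.ncard_union_le _ _)
  intro K hK K' hK' h
  have h2 := hf' K hK
  rw [h] at h2
  exact comp_eq hK hK' h2 (hf' K' hK')

/-- **Necessity.** -/
theorem necessity (hM : ∀ X, M.Indep X ↔ ∃ μ, Mt G μ ∧ X ⊆ cov μ)
    (hr : ∀ B, M.IsBase B → B.ncard = r) {B : Set V} (hB : M.IsBase B) :
    (classes M).ncard + (evenClasses M).ncard ≤ (nonco M)ᶜ.ncard + Bᶜ.ncard := by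
  refine le_trans ?_ (comps_le hM hr hB)
  have h1 : ∀ S ∈ classes M, ∃ K ∈ comps G M, K ⊆ S ∧ K.Nonempty := by
    rintro _ ⟨v, hv, rfl⟩
    refine ⟨_, ⟨v, hv, rfl⟩, ?_, v, Relation.ReflTransGen.refl⟩
    intro u hu
    exact ⟨Rt.mem hu hv, reach_ser hM hr hv hu⟩
  choose! f hf hfS hf0 using h1
  have h2 : ∀ S ∈ evenClasses M, ∃ K ∈ comps G M, K ⊆ S ∧ K.Nonempty ∧ K ≠ f S := by
    rintro S ⟨hS, hS2⟩
    have h3 : f S ≠ S := by
      intro h3
      apply comp_odd hM hr (hf S hS)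
      rwa [h3]
    obtain ⟨w, hwS, hw⟩ := Set.exists_of_ssubset ((hfS S hS).ssubset_of_ne h3)
    have hwn : w ∈ nonco M := by
      obtain ⟨v, hv, rfl⟩ := hS
      exact hwS.1
    refine ⟨_, ⟨w, hwn, rfl⟩, ?_, ⟨w, Relation.ReflTransGen.refl⟩, ?_⟩
    · intro u hu
      obtain ⟨v, hv, rfl⟩ := hS
      exact ⟨Rt.mem hu hwn, hwS.2.trans hwn (reach_ser hM hr hwn hu)⟩
    · intro h4
      apply hw
      rw [← h4]
      exact Relation.ReflTransGen.refl
  choose! g hg hgS hg0 hgf using h2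
  have hdis : ∀ S ∈ classes M, ∀ S' ∈ classes M, ∀ K : Set V, K.Nonempty → K ⊆ S → K ⊆ S' →
      S = S' := by
    rintro _ ⟨v, hv, rfl⟩ _ ⟨v', hv', rfl⟩ K ⟨z, hz⟩ h h'
    exact ser_eq hv hv' (h hz) (h' hz)
  have e1 : (classes M).ncard = (f '' classes M).ncard := by
    rw [Set.InjOn.ncard_image]
    intro S hS S' hS' h
    refine hdis S hS S' hS' (f S) (hf0 S hS) (hfS S hS) ?_
    rw [h]
    exact hfS S' hS'
  have e2 : (evenClasses M).ncard = (g '' evenClasses M).ncard := by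
    rw [Set.InjOn.ncard_image]
    intro S hS S' hS' h
    refine hdis S hS.1 S' hS'.1 (g S) (hg0 S hS) (hgS S hS) ?_
    rw [h]
    exact hgS S' hS'
  rw [e1, e2, ← Set.ncard_union_eq _ (Set.toFinite _) (Set.toFinite _)]
  · refine Set.ncard_le_ncard ?_ (Set.toFinite _)
    rintro _ (⟨S, hS, rfl⟩ | ⟨S, hS, rfl⟩)
    · exact hf S hS
    · exact hg S hS
  · rw [Set.disjoint_left]
    rintro _ ⟨S, hS, rfl⟩ ⟨S', hS', h⟩
    have h3 : S = S' := by
      refine hdis S hS S' hS'.1 (f S) (hf0 S hS) (hfS S hS) ?_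
      rw [← h]
      exact hgS S' hS'
    rw [h3] at h
    exact hgf S' hS' h

end Nec

end Pool.Agent.R27.SM
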