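import Mathlib
import Pool.Agent.R27.SM.Nec

set_option autoImplicit false
set_option linter.unusedSectionVars false
set_option linter.unusedVariables false

/-!
# The structure of transversal matroids with respect to their series classes
-/

namespace Pool.Agent.R27.SM

open Set

variable {V ι : Type} [Finite V] [Finite ι] {M : Matroid V} {𝒜 : ι → Set V}

/-- the independent sets are the partial transversals -/
def Pres (M : Matroid V) (𝒜 : ι → Set V) : Prop :=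
  ∀ X, M.Indep X ↔ ∃ g : V → ι, InjOn g X ∧ ∀ x ∈ X, x ∈ 𝒜 (g x)

lemma coloop_mem {B : Set V} (hB : M.IsBase B) {v : V} (hv : v ∉ nonco M) : v ∈ B := by
  by_contra h
  exact hv ⟨B, hB, h⟩

/-- the part of `B` outside the coloops together with an element outside `B` is dependent -/
lemma not_indep_insert {B : Set V} (hB : M.IsBase B) {x : V} (hx : x ∉ B) :
    ¬ M.Indep (insert x (B ∩ nonco M)) := by
  intro h
  obtain ⟨B', hB', h'⟩ := h.exists_isBase_superset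
  have h1 : insert x B ⊆ B' := by
    intro z hz
    by_cases hzn : z ∈ nonco M
    · rcases hz with rfl | hz
      · exact h' (mem_insert _ _)
      · exact h' (mem_insert_of_mem _ ⟨hz, hzn⟩)
    · exact coloop_mem hB' hzn
  have h2 := hB.eq_of_subset_isBase hB' ((subset_insert _ _).trans h1)
  rw [h2] at hx
  exact hx (h1 (mem_insert _ _))

/-- every base is matched to the same set of indices (off the coloops) -/
lemma md (hM : Pres M 𝒜) {B₀ : Set V} (hB₀ : M.IsBase B₀) {g₀ : V → ι}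
    (hg₀ : InjOn g₀ (B₀ ∩ nonco M)) (hg₀' : ∀ x ∈ B₀ ∩ nonco M, x ∈ 𝒜 (g₀ x))
    {B : Set V} (hB : M.IsBase B) :
    ∃ h : V → ι, InjOn h (B ∩ nonco M) ∧ (∀ x ∈ B ∩ nonco M, x ∈ 𝒜 (h x)) ∧
      h '' (B ∩ nonco M) = g₀ '' (B₀ ∩ nonco M) := by
  classical
  obtain ⟨h₀, h₀1, h₀2⟩ := (hM B).1 hB.indep
  obtain ⟨h, ⟨h1, h2⟩, hmax⟩ := Set.exists_max_image
    {h : V → ι | InjOn h (B ∩ nonco M) ∧ ∀ x ∈ B ∩ nonco M, x ∈ 𝒜 (h x)}
    (fun h => {x ∈ B ∩ nonco M | h x = g₀ x}.ncard) (Set.toFinite _)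
    ⟨h₀, h₀1.mono inter_subset_left, fun x hx => h₀2 x hx.1⟩
  refine ⟨h, h1, h2, ?_⟩
  have key : g₀ '' (B₀ ∩ nonco M) ⊆ h '' (B ∩ nonco M) := by
    rintro _ ⟨x, hx, rfl⟩
    by_contra hj
    have hj' : ∀ y ∈ B ∩ nonco M, h y ≠ g₀ x := fun y hy hyx => hj ⟨y, hy, hyx⟩
    let h' : V → ι := Function.update h x (g₀ x)
    have e1 : h' x = g₀ x := Function.update_self _ _ _
    have e2 : ∀ y, y ≠ x → h' y = h y := fun y hy => Function.update_of_ne hy _ _
    have hinj : InjOn h' (insert x (B ∩ nonco M)) := by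
      intro y hy z hz hyz
      by_cases hyx : y = x
      · by_cases hzx : z = x
        · rw [hyx, hzx]
        · rw [hyx, e1, e2 z hzx] at hyz
          exact absurd hyz.symm (hj' z (hz.resolve_left hzx))
      · by_cases hzx : z = x
        · rw [hzx, e1, e2 y hyx] at hyz
          exact absurd hyz (hj' y (hy.resolve_left hyx))
        · rw [e2 y hyx, e2 z hzx] at hyz
          exact h1 (hy.resolve_left hyx) (hz.resolve_left hzx) hyz
    have hin : ∀ y ∈ insert x (B ∩ nonco M), y ∈ 𝒜 (h' y) := by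
      intro y hy
      by_cases hyx : y = x
      · rw [hyx, e1]
        exact hg₀' x hx
      · rw [e2 y hyx]
        exact h2 y (hy.resolve_left hyx)
    by_cases hxB : x ∈ B
    · have h3 := hmax h' ⟨hinj.mono (subset_insert _ _), fun y hy => hin y (mem_insert_of_mem _ hy)⟩
      have h4 : {y ∈ B ∩ nonco M | h y = g₀ y} ⊂ {y ∈ B ∩ nonco M | h' y = g₀ y} := by
        rw [ssubset_iff_exists]
        refine ⟨?_, x, ⟨⟨hxB, hx.2⟩, e1⟩, fun h5 => hj' x ⟨hxB, hx.2⟩ h5.2⟩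
        rintro y ⟨hy, hy'⟩
        refine ⟨hy, ?_⟩
        by_cases hyx : y = x
        · rw [hyx, e1]
        · rw [e2 y hyx, hy']
      have h5 := Set.ncard_lt_ncard h4 (Set.toFinite _)
      omega
    · exact not_indep_insert hB hxB ((hM _).2 ⟨h', hinj, hin⟩)
  symm
  apply Set.eq_of_subset_of_ncard_le key _ (Set.toFinite _)
  rw [h1.ncard_image, hg₀.ncard_image]
  have e3 : ∀ B, M.IsBase B → B.ncard = (B ∩ nonco M).ncard + (nonco M)ᶜ.ncard := by
    intro B hB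
    rw [← Set.ncard_union_eq _ (Set.toFinite _) (Set.toFinite _)]
    · congr 1
      ext z
      constructor
      · intro hz
        by_cases hzn : z ∈ nonco M
        · exact Or.inl ⟨hz, hzn⟩
        · exact Or.inr hzn
      · rintro (hz | hz)
        · exact hz.1
        · exact coloop_mem hB hz
    · rw [Set.disjoint_left]
      exact fun z hz hz' => hz' hz.2
  have e4 := e3 B hB
  have e5 := e3 B₀ hB₀
  have e6 := hB.ncard_eq_ncard_of_isBase hB₀
  omega

/-- `J` is matched to each base (off the coloops) -/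
def Bij (M : Matroid V) (𝒜 : ι → Set V) (J : Set ι) : Prop :=
  ∀ B, M.IsBase B → ∃ h : V → ι, InjOn h (B ∩ nonco M) ∧ (∀ x ∈ B ∩ nonco M, x ∈ 𝒜 (h x)) ∧
    h '' (B ∩ nonco M) = J

lemma exists_bij (hM : Pres M 𝒜) : ∃ J, Bij M 𝒜 J := by
  obtain ⟨B₀, hB₀⟩ := M.exists_isBase
  obtain ⟨g, hg1, hg2⟩ := (hM B₀).1 hB₀.indep
  exact ⟨g '' (B₀ ∩ nonco M), fun B hB =>
    md hM hB₀ (hg1.mono inter_subset_left) (fun x hx => hg2 x hx.1) hB⟩

/-- the neighbours of `T` -/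
def nb (M : Matroid V) (𝒜 : ι → Set V) (T : Set ι) : Set V :=
  {x | x ∈ nonco M ∧ ∃ j ∈ T, x ∈ 𝒜 j}

lemma nb_mono {T T' : Set ι} (h : T ⊆ T') : nb M 𝒜 T ⊆ nb M 𝒜 T' :=
  fun _ hx => ⟨hx.1, let ⟨j, hj, hxj⟩ := hx.2; ⟨j, h hj, hxj⟩⟩

lemma nb_union {T T' : Set ι} : nb M 𝒜 (T ∪ T') = nb M 𝒜 T ∪ nb M 𝒜 T' := by
  apply Subset.antisymm
  · rintro x ⟨hx, j, hj | hj, hxj⟩
    · exact Or.inl ⟨hx, j, hj, hxj⟩
    · exact Or.inr ⟨hx, j, hj, hxj⟩
  · exact union_subset (nb_mono subset_union_left) (nb_mono subset_union_right)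

variable {J : Set ι}

lemma le_inter (hJ : Bij M 𝒜 J) {B : Set V} (hB : M.IsBase B) {T : Set ι} (hT : T ⊆ J) :
    T.ncard ≤ (nb M 𝒜 T ∩ B).ncard := by
  obtain ⟨h, h1, h2, h3⟩ := hJ B hB
  have h4 : T ⊆ h '' (nb M 𝒜 T ∩ B) := by
    intro j hj
    have hj' := hT hj
    rw [← h3] at hj'
    obtain ⟨x, hx, rfl⟩ := hj'
    exact ⟨x, ⟨⟨hx.2, h x, hj, h2 x hx⟩, hx.1⟩, rfl⟩
  exact (Set.ncard_le_ncard h4 (Set.toFinite _)).trans (Set.ncard_image_le (Set.toFinite _))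

lemma lt_nb (hJ : Bij M 𝒜 J) {T : Set ι} (hT : T ⊆ J) (hT0 : T.Nonempty) :
    T.ncard < (nb M 𝒜 T).ncard := by
  obtain ⟨B, hB⟩ := M.exists_isBase
  have h1 := le_inter hJ hB hT
  have h2 : 0 < T.ncard := (Set.ncard_pos (Set.toFinite _)).2 hT0
  have h3 : (nb M 𝒜 T ∩ B).Nonempty := (Set.ncard_pos (Set.toFinite _)).1 (h2.trans_le h1)
  obtain ⟨z, hz, _⟩ := h3
  obtain ⟨B', hB', hzB'⟩ := hz.1
  refine (le_inter hJ hB' hT).trans_lt (Set.ncard_lt_ncard ?_ (Set.toFinite _))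
  rw [ssubset_iff_exists]
  exact ⟨inter_subset_left, z, hz, fun h => hzB' h.2⟩

/-- by Hall's theorem, a series pair gives a tight set of indices -/
lemma hall (hM : Pres M 𝒜) (hJ : Bij M 𝒜 J) {x y : V} (hx : x ∈ nonco M) (hy : y ∈ nonco M)
    (hxy : ∀ B, M.IsBase B → x ∈ B ∨ y ∈ B) :
    ∃ T ⊆ J, (nb M 𝒜 T \ {x, y}).ncard < T.ncard := by
  classical
  by_contra hcon
  push Not at hcon
  let t : J → Finset V := fun j => (Set.toFinite (nb M 𝒜 {j.1} \ {x, y})).toFinset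
  have h1 : ∀ s : Finset J, s.card ≤ (s.biUnion t).card := by
    intro s
    have h2 := hcon (Subtype.val '' (s : Set J)) (by rintro _ ⟨j, _, rfl⟩; exact j.2)
    rw [Set.ncard_image_of_injective _ Subtype.val_injective, Set.ncard_coe_finset] at h2
    refine h2.trans ?_
    rw [← Set.ncard_coe_finset]
    refine Set.ncard_le_ncard ?_ (Set.toFinite _)
    rintro z ⟨⟨hz, _, ⟨j, hj, rfl⟩, hzj⟩, hz'⟩
    rw [Finset.mem_coe, Finset.mem_biUnion]
    refine ⟨j, hj, ?_⟩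
    rw [Set.Finite.mem_toFinset]
    exact ⟨⟨hz, j.1, rfl, hzj⟩, hz'⟩
  obtain ⟨f, hf, hft⟩ := (Finset.all_card_le_biUnion_card_iff_exists_injective t).1 h1
  have hft' : ∀ j : J, f j ∈ nonco M ∧ f j ∈ 𝒜 j.1 ∧ f j ∉ ({x, y} : Set V) := by
    intro j
    have h2 := hft j
    rw [Set.Finite.mem_toFinset] at h2
    obtain ⟨⟨h3, k, hk, h4⟩, h5⟩ := h2
    rw [mem_singleton_iff] at hk
    exact ⟨h3, hk ▸ h4, h5⟩
  obtain ⟨B₀, hB₀⟩ := M.exists_isBase
  obtain ⟨g₀, _, _, _⟩ := hJ B₀ hB₀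
  have hne : Nonempty ι := ⟨g₀ x⟩
  have hind : M.Indep (range f) := by
    rw [hM]
    let g : V → ι := fun v => if h : ∃ j, f j = v then h.choose.1 else g₀ x
    have hg : ∀ j, g (f j) = j.1 := by
      intro j
      have h2 : ∃ j', f j' = f j := ⟨j, rfl⟩
      simp only [g, dif_pos h2]
      rw [hf h2.choose_spec]
    refine ⟨g, ?_, ?_⟩
    · rintro _ ⟨j, rfl⟩ _ ⟨j', rfl⟩ h
      rw [hg, hg] at h
      rw [Subtype.ext h]
    · rintro _ ⟨j, rfl⟩
      rw [hg]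
      exact (hft' j).2.1
  obtain ⟨B, hB, hfB⟩ := hind.exists_isBase_superset
  obtain ⟨h, h2, h3, h4⟩ := hJ B hB
  have h5 : range f = B ∩ nonco M := by
    apply Set.eq_of_subset_of_ncard_le _ _ (Set.toFinite _)
    · rintro _ ⟨j, rfl⟩
      exact ⟨hfB ⟨j, rfl⟩, (hft' j).1⟩
    · rw [← h2.ncard_image, h4, ← Set.image_univ, Set.ncard_image_of_injective _ hf,
        Set.ncard_univ, Nat.card_coe_set_eq]
  rcases hxy B hB with h6 | h6
  · have h7 : x ∈ range f := by rw [h5]; exact ⟨h6, hx⟩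
    obtain ⟨j, hj⟩ := h7
    exact (hft' j).2.2 (Or.inl hj)
  · have h7 : y ∈ range f := by rw [h5]; exact ⟨h6, hy⟩
    obtain ⟨j, hj⟩ := h7
    exact (hft' j).2.2 (Or.inr hj)

/-- **The tight set of a series class.** -/
lemma exists_tight (hM : Pres M 𝒜) (hJ : Bij M 𝒜 J) {x : V} (hx : x ∈ nonco M) :
    ∃ T ⊆ J, T.ncard + 1 = (ser M x).ncard ∧ nb M 𝒜 T ⊆ ser M x := by
  obtain ⟨T, ⟨hTJ, hT⟩, hmax⟩ := Set.exists_max_image
    {T : Set ι | T ⊆ J ∧ (T = ∅ ∨ (x ∈ nb M 𝒜 T ∧ (nb M 𝒜 T).ncard = T.ncard + 1))}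
    (fun T => T.ncard) (Set.toFinite _) ⟨∅, empty_subset _, Or.inl rfl⟩
  have h1 : nb M 𝒜 T ⊆ ser M x := by
    rcases hT with rfl | ⟨hxT, hT⟩
    · rintro z ⟨_, j, hj, _⟩
      exact absurd hj (notMem_empty j)
    · intro z hz
      refine ⟨hz.1, ?_⟩
      by_cases hxz : x = z
      · exact Or.inl hxz
      refine Or.inr fun B hB => ?_
      by_contra hcon
      push Not at hcon
      have h2 := le_inter hJ hB hTJ
      have h3 : nb M 𝒜 T ∩ B ⊆ nb M 𝒜 T \ {x, z} := by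
        rintro w ⟨hw, hwB⟩
        refine ⟨hw, ?_⟩
        rintro (rfl | h)
        · exact hcon.1 hwB
        · rw [mem_singleton_iff] at h
          exact hcon.2 (h ▸ hwB)
      have h4 := Set.ncard_le_ncard h3 (Set.toFinite _)
      rw [Set.ncard_sdiff (by
        intro w hw
        rcases hw with rfl | hw
        · exact hxT
        · rw [mem_singleton_iff.1 hw]; exact hz) (Set.toFinite _), Set.ncard_pair hxz] at h4
      have h5 : 1 < (nb M 𝒜 T).ncard := by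
        rw [Set.one_lt_ncard_iff (Set.toFinite _)]
        exact ⟨x, z, hxT, hz, hxz⟩
      omega
  have h2 : ∀ y ∈ ser M x, y ≠ x → T ≠ ∅ ∧ y ∈ nb M 𝒜 T := by
    intro y hy hyx
    obtain ⟨T', hT'J, hT'⟩ := hall hM hJ hx hy.1 (hy.2.resolve_left (Ne.symm hyx))
    have h3 : T'.Nonempty := (Set.ncard_pos (Set.toFinite _)).1 (by omega)
    have h4 := lt_nb hJ hT'J h3
    have h5 : (nb M 𝒜 T').ncard ≤ (nb M 𝒜 T' \ {x, y}).ncard + (nb M 𝒜 T' ∩ {x, y}).ncard := by
      rw [← Set.ncard_union_eq _ (Set.toFinite _) (Set.toFinite _)]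
      · refine Set.ncard_le_ncard ?_ (Set.toFinite _)
        intro z hz
        by_cases h : z ∈ ({x, y} : Set V)
        · exact Or.inr ⟨hz, h⟩
        · exact Or.inl ⟨hz, h⟩
      · rw [Set.disjoint_left]
        exact fun z hz hz' => hz.2 hz'.2
    have h6 : (nb M 𝒜 T' ∩ {x, y}).ncard ≤ ({x, y} : Set V).ncard :=
      Set.ncard_le_ncard inter_subset_right (Set.toFinite _)
    have h7 : ({x, y} : Set V).ncard = 2 := Set.ncard_pair (Ne.symm hyx)
    have h8 : nb M 𝒜 T' ∩ {x, y} = {x, y} :=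
      Set.eq_of_subset_of_ncard_le inter_subset_right (by omega) (Set.toFinite _)
    have hxT' : x ∈ nb M 𝒜 T' := (h8.symm ▸ (Or.inl rfl : x ∈ ({x, y} : Set V)) :
      x ∈ nb M 𝒜 T' ∩ {x, y}).1
    have hyT' : y ∈ nb M 𝒜 T' := (h8.symm ▸ (Or.inr rfl : y ∈ ({x, y} : Set V)) :
      y ∈ nb M 𝒜 T' ∩ {x, y}).1
    have h9 : (nb M 𝒜 T').ncard = T'.ncard + 1 := by omega
    have hTne : T ≠ ∅ := by
      intro h
      have h10 := hmax T' ⟨hT'J, Or.inr ⟨hxT', h9⟩⟩
      have h11 : 0 < T'.ncard := (Set.ncard_pos (Set.toFinite _)).2 h3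
      simp only [h, Set.ncard_empty] at h10
      omega
    refine ⟨hTne, ?_⟩
    obtain ⟨hxT, hTc⟩ := hT.resolve_left hTne
    by_contra hyT
    have u1 := Set.ncard_union_add_ncard_inter (nb M 𝒜 T) (nb M 𝒜 T') (Set.toFinite _) (Set.toFinite _)
    have u2 := Set.ncard_union_add_ncard_inter T T' (Set.toFinite _) (Set.toFinite _)
    have u3 : (T ∩ T').ncard + 1 ≤ (nb M 𝒜 T ∩ nb M 𝒜 T').ncard := by
      by_cases h10 : (T ∩ T').Nonempty
      · have h11 := lt_nb hJ (inter_subset_left.trans hTJ) h10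
        have h12 : nb M 𝒜 (T ∩ T') ⊆ nb M 𝒜 T ∩ nb M 𝒜 T' :=
          subset_inter (nb_mono inter_subset_left) (nb_mono inter_subset_right)
        have h13 := Set.ncard_le_ncard h12 (Set.toFinite _)
        omega
      · rw [Set.not_nonempty_iff_eq_empty] at h10
        rw [h10, Set.ncard_empty]
        have : 0 < (nb M 𝒜 T ∩ nb M 𝒜 T').ncard :=
          (Set.ncard_pos (Set.toFinite _)).2 ⟨x, hxT, hxT'⟩
        omega
    have u4 := lt_nb hJ (union_subset hTJ hT'J) (h3.mono subset_union_right)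
    rw [nb_union] at u4
    have u5 := hmax (T ∪ T') ⟨union_subset hTJ hT'J, Or.inr ⟨?_, ?_⟩⟩
    · have u6 : T = T ∪ T' := Set.eq_of_subset_of_ncard_le subset_union_left u5 (Set.toFinite _)
      apply hyT
      rw [u6, nb_union]
      exact Or.inr hyT'
    · rw [nb_union]
      exact Or.inl hxT
    · rw [nb_union]
      omega
  refine ⟨T, hTJ, ?_, h1⟩
  by_cases hTe : T = ∅
  · have h3 : ser M x = {x} := by
      ext y
      rw [mem_singleton_iff]
      constructor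
      · intro hy
        by_contra hyx
        exact (h2 y hy hyx).1 hTe
      · rintro rfl
        exact mem_ser_self hx
    rw [hTe, h3, Set.ncard_empty, Set.ncard_singleton]
  · obtain ⟨hxT, hTc⟩ := hT.resolve_left hTe
    have h3 : ser M x = nb M 𝒜 T := by
      apply Subset.antisymm _ h1
      intro y hy
      by_cases hyx : y = x
      · rw [hyx]; exact hxT
      · exact (h2 y hy hyx).2
    rw [h3, hTc]

end Pool.Agent.R27.SM
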