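import Mathlib
import Pool.Agent.R27.SM.Trans
import Pool.Agent.R27.SM.Build

set_option autoImplicit false
set_option linter.unusedSectionVars false
set_option linter.unusedVariables false

/-!
# Sufficiency
-/

namespace Pool.Agent.R27.SM

open Set

variable {V ι : Type} [Finite V] [Finite ι] {M : Matroid V} {𝒜 : ι → Set V} {J : Set ι}

/-- the type of the series classes -/
abbrev Cl (M : Matroid V) : Type := {S : Set V // S ∈ classes M}

lemma cl_disj (k k' : Cl M) (v : V) (hv : v ∈ k.1) (hv' : v ∈ k'.1) : k = k' := by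
  obtain ⟨_, u, hu, rfl⟩ := k
  obtain ⟨_, u', hu', rfl⟩ := k'
  exact Subtype.ext (ser_eq hu hu' hv hv')

lemma cl_nonco (k : Cl M) (v : V) (hv : v ∈ k.1) : v ∈ nonco M := by
  obtain ⟨_, u, hu, rfl⟩ := k
  exact hv.1

lemma cl_sr (k : Cl M) {v w : V} (hv : v ∈ k.1) (hw : w ∈ k.1) : Sr M v w := by
  obtain ⟨_, u, hu, rfl⟩ := k
  exact hv.2.symm.trans hu hw.2

/-- tight sets for the classes -/
structure Tight (M : Matroid V) (𝒜 : ι → Set V) (J : Set ι) (T : Cl M → Set ι) : Prop where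
  sub : ∀ k, T k ⊆ J
  card : ∀ k, (T k).ncard + 1 = k.1.ncard
  nbr : ∀ k, nb M 𝒜 (T k) ⊆ k.1

lemma exists_tights (hM : Pres M 𝒜) (hJ : Bij M 𝒜 J) : ∃ T, Tight M 𝒜 J T := by
  have h : ∀ k : Cl M, ∃ T ⊆ J, T.ncard + 1 = k.1.ncard ∧ nb M 𝒜 T ⊆ k.1 := by
    rintro ⟨_, u, hu, rfl⟩
    exact exists_tight hM hJ hu
  choose T h1 h2 h3 using h
  exact ⟨T, h1, h2, h3⟩

variable {T : Cl M → Set ι}

lemma Tight.disj (hT : Tight M 𝒜 J T) (hJ : Bij M 𝒜 J) {k k' : Cl M} {j : ι} (hj : j ∈ T k)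
    (hj' : j ∈ T k') : k = k' := by
  have h1 := lt_nb hJ (singleton_subset_iff.2 (hT.sub k hj)) (singleton_nonempty j)
  have h2 : (nb M 𝒜 {j}).Nonempty := (Set.ncard_pos (Set.toFinite _)).1 (by omega)
  obtain ⟨v, hv⟩ := h2
  exact cl_disj k k' v (hT.nbr k (nb_mono (singleton_subset_iff.2 hj) hv))
    (hT.nbr k' (nb_mono (singleton_subset_iff.2 hj') hv))

/-- the remaining indices -/
abbrev Ix (J : Set ι) (T : Cl M → Set ι) : Type := {j : ι // j ∈ J ∧ ∀ k, j ∉ T k}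

/-- the relation between classes and remaining indices -/
def Rl (𝒜 : ι → Set V) (J : Set ι) (T : Cl M → Set ι) (k : Cl M) (i : Ix J T) : Prop :=
  ∃ v ∈ k.1, v ∈ 𝒜 i.1

/-- the elements matched into `T k` -/
lemma pre_tight (hT : Tight M 𝒜 J T) {B : Set V} {h : V → ι}
    (h2 : ∀ x ∈ B ∩ nonco M, x ∈ 𝒜 (h x)) (h3 : h '' (B ∩ nonco M) = J) (k : Cl M) :
    {y ∈ B ∩ nonco M | h y ∈ T k} ⊆ k.1 ∩ B ∧
      (T k).ncard ≤ {y ∈ B ∩ nonco M | h y ∈ T k}.ncard := by
  constructor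
  · rintro y ⟨hy, hyT⟩
    exact ⟨hT.nbr k ⟨hy.2, h y, hyT, h2 y hy⟩, hy.1⟩
  · have h4 : T k ⊆ h '' {y ∈ B ∩ nonco M | h y ∈ T k} := by
      intro j hj
      have h5 := hT.sub k hj
      rw [← h3] at h5
      obtain ⟨y, hy, rfl⟩ := h5
      exact ⟨y, ⟨hy, hj⟩, rfl⟩
    exact (Set.ncard_le_ncard h4 (Set.toFinite _)).trans (Set.ncard_image_le (Set.toFinite _))

lemma sigma_forward (hJ : Bij M 𝒜 J) (hT : Tight M 𝒜 J T) {B : Set V} (hB : M.IsBase B) :
    ∃ κ : {k : Cl M // k.1 ⊆ B} → Ix J T, Function.Injective κ ∧ ∀ k, Rl 𝒜 J T k.1 (κ k) := by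
  obtain ⟨h, h1, h2, h3⟩ := hJ B hB
  have key : ∀ k : {k : Cl M // k.1 ⊆ B}, ∃ u ∈ k.1.1, h u ∉ T k.1 := by
    intro k
    by_contra hcon
    push Not at hcon
    have h4 : h '' k.1.1 ⊆ T k.1 := by
      rintro _ ⟨u, hu, rfl⟩
      exact hcon u hu
    have h5 := Set.ncard_le_ncard h4 (Set.toFinite _)
    have h7 : k.1.1 ⊆ B ∩ nonco M := fun v hv => ⟨k.2 hv, cl_nonco _ v hv⟩
    have h6 : InjOn h k.1.1 := h1.mono h7
    rw [h6.ncard_image] at h5
    have := hT.card k.1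
    omega
  choose u hu hu' using key
  have hin : ∀ k, u k ∈ B ∩ nonco M := fun k => ⟨k.2 (hu k), cl_nonco _ _ (hu k)⟩
  have hJu : ∀ k, h (u k) ∈ J := by
    intro k
    rw [← h3]
    exact ⟨u k, hin k, rfl⟩
  have hTu : ∀ k, ∀ k', h (u k) ∉ T k' := by
    intro k k' hk'
    by_cases hkk : k.1 = k'
    · exact hu' k (hkk ▸ hk')
    · apply hkk
      exact cl_disj _ _ (u k) (hu k) (hT.nbr k' ⟨(hin k).2, h (u k), hk', h2 _ (hin k)⟩)
  refine ⟨fun k => ⟨h (u k), hJu k, hTu k⟩, ?_, ?_⟩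
  · intro k k' hkk
    have h4 : h (u k) = h (u k') := congrArg Subtype.val hkk
    have h5 := h1 (hin k) (hin k') h4
    exact Subtype.ext (cl_disj _ _ (u k) (hu k) (h5 ▸ hu k'))
  · intro k
    exact ⟨u k, hu k, h2 _ (hin k)⟩

lemma avoid (hJ : Bij M 𝒜 J) (hT : Tight M 𝒜 J T) (k : Cl M) {p : V} (hp : p ∈ k.1) :
    ∃ φ : V → ι, InjOn φ (k.1 \ {p}) ∧ ∀ x ∈ k.1 \ {p}, x ∈ 𝒜 (φ x) ∧ φ x ∈ T k := by
  obtain ⟨B, hB, hpB⟩ := cl_nonco k p hp
  obtain ⟨h, h1, h2, h3⟩ := hJ B hB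
  have h4 : ∀ x ∈ k.1 \ {p}, x ∈ B ∩ nonco M := by
    rintro x ⟨hx, hxp⟩
    refine ⟨?_, cl_nonco k x hx⟩
    rcases cl_sr k hp hx with h5 | h5
    · exact absurd h5.symm hxp
    · exact (h5 B hB).resolve_left hpB
  obtain ⟨h5, h6⟩ := pre_tight hT h2 h3 k
  have h7 : {y ∈ B ∩ nonco M | h y ∈ T k} = k.1 \ {p} := by
    apply Set.eq_of_subset_of_ncard_le _ _ (Set.toFinite _)
    · intro y hy
      refine ⟨(h5 hy).1, ?_⟩
      rintro rfl
      exact hpB (h5 hy).2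
    · rw [Set.ncard_sdiff_singleton_of_mem hp]
      have := hT.card k
      omega
  refine ⟨h, h1.mono h4, fun x hx => ⟨h2 x (h4 x hx), ?_⟩⟩
  rw [← h7] at hx
  exact hx.2

lemma sigma_backward (hM : Pres M 𝒜) (hJ : Bij M 𝒜 J) (hT : Tight M 𝒜 J T) {X : Set V}
    (κ : {k : Cl M // k.1 ⊆ X} → Ix J T) (hκ : Function.Injective κ)
    (hκR : ∀ k, Rl 𝒜 J T k.1 (κ k)) : M.Indep X := by
  classical
  obtain ⟨B₀, hB₀⟩ := M.exists_isBase
  obtain ⟨g₀, _, _, _⟩ := hJ B₀ hB₀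
  have hp : ∀ k : Cl M, ∃ p ∈ k.1, (∀ hk : k.1 ⊆ X, p ∈ 𝒜 (κ ⟨k, hk⟩).1) ∧ (¬ k.1 ⊆ X → p ∉ X) := by
    intro k
    by_cases hk : k.1 ⊆ X
    · obtain ⟨v, hv, hv'⟩ := hκR ⟨k, hk⟩
      exact ⟨v, hv, fun _ => hv', fun h => absurd hk h⟩
    · obtain ⟨p, hp, hpX⟩ := Set.not_subset.1 hk
      exact ⟨p, hp, fun h => absurd h hk, fun _ => hpX⟩
  choose p hp hp1 hp2 using hp
  choose φ hφ1 hφ2 using fun k => avoid hJ hT k (hp k)
  have hcl : ∀ v, v ∈ nonco M → ∃ k : Cl M, v ∈ k.1 :=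
    fun v hv => ⟨⟨ser M v, v, hv, rfl⟩, mem_ser_self hv⟩
  let g : V → ι := fun v => if hv : v ∈ nonco M then
    (if h : (hcl v hv).choose.1 ⊆ X ∧ v = p (hcl v hv).choose then (κ ⟨_, h.1⟩).1
      else φ (hcl v hv).choose v) else g₀ v
  have hg1 : ∀ (k : Cl M) (hk : k.1 ⊆ X), g (p k) = (κ ⟨k, hk⟩).1 := by
    intro k hk
    have h1 := cl_nonco k _ (hp k)
    have h2 : (hcl _ h1).choose = k := cl_disj _ _ _ (hcl _ h1).choose_spec (hp k)
    simp only [g, dif_pos h1]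
    rw [dif_pos ⟨h2.symm ▸ hk, by rw [h2]⟩]
    congr 3
  have hg2 : ∀ (k : Cl M) (v : V), v ∈ k.1 → v ≠ p k → g v = φ k v := by
    intro k v hv hvp
    have h1 := cl_nonco k _ hv
    have h2 : (hcl _ h1).choose = k := cl_disj _ _ _ (hcl _ h1).choose_spec hv
    simp only [g, dif_pos h1]
    rw [dif_neg, h2]
    rintro ⟨_, h3⟩
    rw [h2] at h3
    exact hvp h3
  have hpX : ∀ k : Cl M, p k ∈ X → k.1 ⊆ X := by
    intro k hk
    by_contra h
    exact hp2 k h hk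
  have hind : M.Indep (X ∩ nonco M) := by
    rw [hM]
    refine ⟨g, ?_, ?_⟩
    · rintro v ⟨hvX, hvn⟩ v' ⟨hvX', hvn'⟩ hvv
      obtain ⟨k, hk⟩ := hcl v hvn
      obtain ⟨k', hk'⟩ := hcl v' hvn'
      by_cases h1 : v = p k
      · have h2 := hpX k (h1 ▸ hvX)
        by_cases h1' : v' = p k'
        · have h2' := hpX k' (h1' ▸ hvX')
          rw [h1, h1', hg1 k h2, hg1 k' h2'] at hvv
          have h3 := hκ (Subtype.ext hvv)
          have h4 : k = k' := congrArg Subtype.val h3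
          rw [h1, h1', h4]
        · rw [h1, hg1 k h2, hg2 k' v' hk' h1'] at hvv
          exact absurd (hvv ▸ (hφ2 k' v' ⟨hk', h1'⟩).2) ((κ ⟨k, h2⟩).2.2 k')
      · by_cases h1' : v' = p k'
        · have h2' := hpX k' (h1' ▸ hvX')
          rw [h1', hg1 k' h2', hg2 k v hk h1] at hvv
          exact absurd (hvv ▸ (hφ2 k v ⟨hk, h1⟩).2) ((κ ⟨k', h2'⟩).2.2 k)
        · rw [hg2 k v hk h1, hg2 k' v' hk' h1'] at hvv
          have h3 := (hφ2 k v ⟨hk, h1⟩).2
          have h4 := (hφ2 k' v' ⟨hk', h1'⟩).2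
          rw [hvv] at h3
          obtain rfl := hT.disj hJ h3 h4
          exact hφ1 k ⟨hk, h1⟩ ⟨hk', h1'⟩ hvv
    · rintro v ⟨hvX, hvn⟩
      obtain ⟨k, hk⟩ := hcl v hvn
      by_cases h1 : v = p k
      · have h2 := hpX k (h1 ▸ hvX)
        rw [h1, hg1 k h2]
        exact hp1 k h2
      · rw [hg2 k v hk h1]
        exact (hφ2 k v ⟨hk, h1⟩).1
  obtain ⟨B, hB, hXB⟩ := hind.exists_isBase_superset
  refine hB.indep.subset fun v hv => ?_
  by_cases hvn : v ∈ nonco M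
  · exact hXB ⟨hv, hvn⟩
  · exact coloop_mem hB hvn

/-- **The description of the independent sets through the classes.** -/
lemma sigma (hM : Pres M 𝒜) (hJ : Bij M 𝒜 J) (hT : Tight M 𝒜 J T) (X : Set V) :
    M.Indep X ↔ ∃ κ : {k : Cl M // k.1 ⊆ X} → Ix J T, Function.Injective κ ∧
      ∀ k, Rl 𝒜 J T k.1 (κ k) := by
  constructor
  · intro hX
    obtain ⟨B, hB, hXB⟩ := hX.exists_isBase_superset
    obtain ⟨κ, hκ, hκR⟩ := sigma_forward hJ hT hB
    refine ⟨fun k => κ ⟨k.1, k.2.trans hXB⟩, ?_, fun k => hκR ⟨k.1, k.2.trans hXB⟩⟩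
    intro k k' hkk
    have h1 : k.1 = k'.1 := congrArg (fun z : {k : Cl M // k.1 ⊆ B} => z.1) (hκ hkk)
    exact Subtype.ext h1
  · rintro ⟨κ, hκ, hκR⟩
    exact sigma_backward hM hJ hT κ hκ hκR

lemma card_base (hJ : Bij M 𝒜 J) (hT : Tight M 𝒜 J T) {B : Set V} (hB : M.IsBase B) :
    Nat.card {k : Cl M // k.1 ⊆ B} = Nat.card (Ix J T) := by
  apply le_antisymm
  · obtain ⟨κ, hκ, _⟩ := sigma_forward hJ hT hB
    exact Nat.card_le_card_of_injective κ hκ
  · obtain ⟨h, h1, h2, h3⟩ := hJ B hB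
    have h4 : ∀ i : Ix J T, ∃ u ∈ B ∩ nonco M, h u = i.1 := by
      intro i
      exact (Set.ext_iff.1 h3 i.1).2 i.2.1
    choose u hu hui using h4
    have h5 : ∀ k : Cl M, ∀ W : Set V, W ⊆ k.1 ∩ B → (∀ w ∈ W, h w ∉ T k) →
        (T k).ncard + W.ncard ≤ (k.1 ∩ B).ncard := by
      intro k W hW hWT
      obtain ⟨h6, h7⟩ := pre_tight hT h2 h3 k
      refine (Nat.add_le_add_right h7 _).trans ?_
      rw [← Set.ncard_union_eq _ (Set.toFinite _) (Set.toFinite _)]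
      · exact Set.ncard_le_ncard (union_subset h6 hW) (Set.toFinite _)
      · rw [Set.disjoint_left]
        exact fun z hz hz' => hWT z hz' hz.2
    let c : Ix J T → Cl M := fun i => ⟨ser M (u i), u i, (hu i).2, rfl⟩
    have hcu : ∀ i, u i ∈ (c i).1 := fun i => mem_ser_self (hu i).2
    have hsub : ∀ i, (c i).1 ⊆ B := by
      intro i
      have h6 := h5 (c i) {u i} (by
        rw [singleton_subset_iff]
        exact ⟨hcu i, (hu i).1⟩) (by
        intro w hw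
        rw [mem_singleton_iff.1 hw, hui]
        exact i.2.2 _)
      rw [Set.ncard_singleton, hT.card] at h6
      have h7 : (c i).1 ∩ B = (c i).1 :=
        Set.eq_of_subset_of_ncard_le inter_subset_left h6 (Set.toFinite _)
      rw [← h7]
      exact inter_subset_right
    refine Nat.card_le_card_of_injective (fun i => (⟨c i, hsub i⟩ : {k : Cl M // k.1 ⊆ B})) ?_
    intro i i' hii
    have h6 : c i = c i' := congrArg (fun z : {k : Cl M // k.1 ⊆ B} => z.1) hii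
    by_contra hne
    have h7 : u i ≠ u i' := by
      intro h7
      apply hne
      apply Subtype.ext
      rw [← hui, ← hui, h7]
    have h8 := h5 (c i) {u i, u i'} (by
      rintro w (rfl | hw)
      · exact ⟨hcu i, (hu i).1⟩
      · rw [mem_singleton_iff] at hw
        rw [hw, h6]
        exact ⟨hcu i', (hu i').1⟩) (by
      rintro w (rfl | hw)
      · rw [hui]; exact i.2.2 _
      · rw [mem_singleton_iff] at hw
        rw [hw, hui]; exact i'.2.2 _)
    rw [Set.ncard_pair h7] at h8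
    have h9 := Set.ncard_le_ncard (inter_subset_left : (c i).1 ∩ B ⊆ (c i).1) (Set.toFinite _)
    have h10 := hT.card (c i)
    omega

lemma card_compl {B : Set V} (hB : M.IsBase B) :
    Nat.card {k : Cl M // k.1 ⊆ B} + Bᶜ.ncard ≤ (classes M).ncard := by
  have h1 : Nat.card {k : Cl M // k.1 ⊆ B} ≤ {S | S ∈ classes M ∧ S ⊆ B}.ncard := by
    rw [← Nat.card_coe_set_eq]
    refine Nat.card_le_card_of_injective (fun k => ⟨k.1.1, k.1.2, k.2⟩) ?_
    intro k k' h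
    simp only [Subtype.mk.injEq] at h
    exact Subtype.ext (Subtype.ext h)
  have h2 : Bᶜ.ncard ≤ {S | S ∈ classes M ∧ ¬ S ⊆ B}.ncard := by
    refine Set.ncard_le_ncard_of_injOn (ser M) ?_ ?_ (Set.toFinite _)
    · intro v hv
      have hvn : v ∈ nonco M := ⟨B, hB, hv⟩
      exact ⟨⟨v, hvn, rfl⟩, fun h => hv (h (mem_ser_self hvn))⟩
    · intro v hv v' hv' h
      have hvn : v ∈ nonco M := ⟨B, hB, hv⟩
      have h3 : v ∈ ser M v' := h ▸ mem_ser_self hvn
      rcases h3.2 with h4 | h4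
      · exact h4.symm
      · rcases h4 B hB with h5 | h5
        · exact absurd h5 hv'
        · exact absurd h5 hv
  refine (Nat.add_le_add h1 h2).trans ?_
  rw [← Set.ncard_union_eq _ (Set.toFinite _) (Set.toFinite _)]
  · refine Set.ncard_le_ncard ?_ (Set.toFinite _)
    rintro S (hS | hS)
    · exact hS.1
    · exact hS.1
  · rw [Set.disjoint_left]
    exact fun S hS hS' => hS'.2 hS.2

/-- the parity of the rank -/
lemma parity_rank (hJ : Bij M 𝒜 J) (hT : Tight M 𝒜 J T) {B : Set V} (hB : M.IsBase B)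
    (hr : Even B.ncard) :
    Even ((nonco M)ᶜ.ncard + Nat.card (Ix J T) + Nat.card {k : Cl M // Even k.1.ncard}) := by
  classical
  have : Fintype (Cl M) := Fintype.ofFinite _
  have : Fintype ι := Fintype.ofFinite _
  obtain ⟨h, h1, h2, h3⟩ := hJ B hB
  have e1 : B.ncard = (nonco M)ᶜ.ncard + J.ncard := by
    rw [← h3, h1.ncard_image, ← Set.ncard_union_eq _ (Set.toFinite _) (Set.toFinite _)]
    · congr 1
      ext z
      constructor
      · intro hz
        by_cases hzn : z ∈ nonco M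
        · exact Or.inr ⟨hz, hzn⟩
        · exact Or.inl hzn
      · rintro (hz | hz)
        · exact coloop_mem hB hz
        · exact hz.1
    · rw [Set.disjoint_left]
      exact fun z hz hz' => hz hz'.2
  have e2 : J.ncard = (⋃ k, T k).ncard + Nat.card (Ix J T) := by
    have h4 : Nat.card (Ix J T) = {j | j ∈ J ∧ ∀ k, j ∉ T k}.ncard := by
      rw [← Nat.card_coe_set_eq]; rfl
    rw [h4, ← Set.ncard_union_eq _ (Set.toFinite _) (Set.toFinite _)]
    · congr 1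
      ext j
      constructor
      · intro hj
        by_cases h5 : ∃ k, j ∈ T k
        · exact Or.inl (mem_iUnion.2 h5)
        · push Not at h5
          exact Or.inr ⟨hj, h5⟩
      · rintro (hj | hj)
        · obtain ⟨k, hk⟩ := mem_iUnion.1 hj
          exact hT.sub k hk
        · exact hj.1
    · rw [Set.disjoint_left]
      intro z hz hz'
      obtain ⟨k, hk⟩ := mem_iUnion.1 hz
      exact hz'.2 k hk
  have e3 : (⋃ k, T k).ncard = ∑ k : Cl M, (T k).ncard := by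
    have h4 : (⋃ k, T k) = ((Finset.univ.biUnion fun k : Cl M => (T k).toFinset : Finset ι) : Set ι)
        := by
      ext j
      simp
    rw [h4, Set.ncard_coe_finset, Finset.card_biUnion]
    · refine Finset.sum_congr rfl fun k _ => ?_
      rw [Set.ncard_eq_toFinset_card']
    · intro k _ k' _ hkk
      rw [Function.onFun, Finset.disjoint_left]
      intro j hj hj'
      rw [Set.mem_toFinset] at hj hj'
      exact hkk (hT.disj hJ hj hj')
  have e4 : Even (∑ k : Cl M, (T k).ncard) ↔ Even (Nat.card {k : Cl M // Even k.1.ncard}) := by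
    rw [Finset.even_sum_iff_even_card_odd, Nat.card_eq_fintype_card, Fintype.card_subtype]
    have h5 : (Finset.univ.filter fun k : Cl M => Odd (T k).ncard) =
        Finset.univ.filter fun k : Cl M => Even k.1.ncard := by
      ext k
      simp only [Finset.mem_filter, Finset.mem_univ, true_and]
      rw [← hT.card k]
      constructor
      · rintro ⟨a, ha⟩
        exact ⟨a + 1, by omega⟩
      · rintro ⟨a, ha⟩
        exact ⟨a - 1, by omega⟩
    rw [h5]
  rw [e1, e2, e3] at hr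
  rw [Nat.even_add, Nat.even_add] at hr ⊢
  tauto

/-- **Sufficiency.** -/
theorem sufficiency (hM : Pres M 𝒜) {B : Set V} (hB : M.IsBase B) (hr : Even B.ncard)
    (hle : (classes M).ncard + (evenClasses M).ncard ≤ (nonco M)ᶜ.ncard + Bᶜ.ncard) :
    ∃ G : SimpleGraph V, ∀ X, M.Indep X ↔ ∃ μ, Mt G μ ∧ X ⊆ cov μ := by
  classical
  have : Fintype V := Fintype.ofFinite V
  obtain ⟨J, hJ⟩ := exists_bij hM
  obtain ⟨T, hT⟩ := exists_tights hM hJ
  have e1 := card_base hJ hT hB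
  have e2 := card_compl hB
  have e3 := parity_rank hJ hT hB hr
  have e4 : Nat.card {k : Cl M // Even k.1.ncard} = (evenClasses M).ncard := by
    rw [← Nat.card_coe_set_eq]
    refine Nat.card_congr ⟨fun k => ⟨k.1.1, k.1.2, k.2⟩, fun S => ⟨⟨S.1, S.2.1⟩, S.2.2⟩,
      fun k => rfl, fun S => rfl⟩
  have e5 : Nat.card (Ix J T ⊕ {k : Cl M // Even k.1.ncard}) ≤ (nonco M)ᶜ.ncard := by
    rw [Nat.card_sum]
    omega
  obtain ⟨f⟩ : Nonempty ((Ix J T ⊕ {k : Cl M // Even k.1.ncard}) ↪ ((nonco M)ᶜ : Set V)) := by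
    have : Fintype (Ix J T ⊕ {k : Cl M // Even k.1.ncard}) := Fintype.ofFinite _
    apply Function.Embedding.nonempty_of_card_le
    rw [← Nat.card_eq_fintype_card, ← Nat.card_eq_fintype_card, Nat.card_coe_set_eq]
    exact e5
  have hρ : ∀ k : Cl M, ∃ v, v ∈ k.1 := by
    rintro ⟨_, u, hu, rfl⟩
    exact ⟨u, mem_ser_self hu⟩
  choose ρ hρ using hρ
  refine ⟨gr (nonco M)ᶜ (fun k : Cl M => k.1) ρ (Rl 𝒜 J T) (fun x => (f x).1), fun X => ?_⟩
  refine build (Q := (nonco M)ᶜ) (Dk := fun k : Cl M => k.1) cl_disj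
    (fun k v hv hv' => hv' (cl_nonco k v hv)) ?_ (fun x => (f x).2)
    (fun x y h => f.injective (Subtype.ext h)) hρ ?_ (sigma hM hJ hT)
    (fun B hB => card_base hJ hT hB) X
  · intro v hv
    rw [mem_compl_iff, not_not] at hv
    exact ⟨⟨ser M v, v, hv, rfl⟩, mem_ser_self hv⟩
  · have h1 : range (fun x => (f x).1) ⊆ (nonco M)ᶜ := by
      rintro _ ⟨x, rfl⟩
      exact (f x).2
    have h2 : (range fun x => (f x).1).ncard =
        Nat.card (Ix J T) + Nat.card {k : Cl M // Even k.1.ncard} := by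
      rw [← Set.image_univ, Set.ncard_image_of_injective _ (fun x y h =>
        f.injective (Subtype.ext h)), Set.ncard_univ, Nat.card_sum]
    rw [Set.ncard_sdiff h1 (Set.toFinite _), h2]
    obtain ⟨a, ha⟩ := e3
    rw [Nat.card_sum] at e5
    exact ⟨a - (Nat.card (Ix J T) + Nat.card {k : Cl M // Even k.1.ncard}), by omega⟩

end Pool.Agent.R27.SM
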